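import Pool.Agent.Helper63.UC.Cyc

/-!
# Lifting the designs of affine resolvable designs
-/

set_option autoImplicit false

namespace Pool.Agent.Helper63.UC

open Finset

theorem card_zero_level {n q : ℕ} [NeZero n] [NeZero q] {U : Type} [AddCommGroup U] [Fintype U]
    [DecidableEq U] (Ψ : U ≃ ZMod n × ZMod q) (e : U)
    (he : ∀ u, Ψ (u + e) = ((Ψ u).1, (Ψ u).2 + 1)) :
    (univ.filter (fun u => (Ψ u).2 = 0)).card = n := by
  have hn : 0 < n := Nat.pos_of_ne_zero (NeZero.ne n)
  have hq : 0 < q := Nat.pos_of_ne_zero (NeZero.ne q)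
  have : NeZero (q * n) := ⟨(Nat.mul_pos hq hn).ne'⟩
  have h1 := sum_split Ψ e he (fun _ => 1) (fun _ => rfl)
  rw [sum_const, sum_const, smul_eq_mul, smul_eq_mul, mul_one, mul_one, card_univ,
    Fintype.card_congr Ψ, Fintype.card_prod, ZMod.card, ZMod.card, mul_comm] at h1
  exact (Nat.eq_of_mul_eq_mul_left hq h1).symm

section

set_option linter.unusedSectionVars false

variable {Λ E : Type} [Fintype Λ] [Fintype E] [DecidableEq E] {q : ℕ} [NeZero q]

open Classical in
/-- The number of common elements of two translated classes. -/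
noncomputable def Gn (π : Λ → E → ZMod q) (o o' : Option Λ) (y y' : E) (j j' : ZMod q) : ℕ :=
  (univ.filter (fun x => (∃ t, o = some t ∧ π t y = π t x + j) ∧
    (∃ t, o' = some t ∧ π t y' = π t x + j'))).card

variable {π : Λ → E → ZMod q}

theorem Gn_none_left (o' : Option Λ) (y y' : E) (j j' : ZMod q) : Gn π none o' y y' j j' = 0 := by
  unfold Gn
  rw [card_eq_zero, filter_eq_empty_iff]
  rintro x - ⟨⟨t, ht, -⟩, -⟩
  exact absurd ht (by simp)

theorem Gn_none_right (o : Option Λ) (y y' : E) (j j' : ZMod q) : Gn π o none y y' j j' = 0 := by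
  unfold Gn
  rw [card_eq_zero, filter_eq_empty_iff]
  rintro x - ⟨-, t, ht, -⟩
  exact absurd ht (by simp)

theorem Gn_ne {μ : ℕ}
    (h2 : ∀ t t', t ≠ t' → ∀ a a', (univ.filter (fun y => π t y = a ∧ π t' y = a')).card = μ)
    {t t' : Λ} (ht : t ≠ t') (y y' : E) (j j' : ZMod q) :
    Gn π (some t) (some t') y y' j j' = μ := by
  rw [← h2 t t' ht (π t y - j) (π t' y' - j')]
  unfold Gn
  refine congrArg card (filter_congr (fun x _ => ?_))
  simp only [Option.some.injEq, exists_eq_left']
  rw [eq_sub_iff_add_eq, eq_sub_iff_add_eq, eq_comm, eq_comm (a := π t' x + j')]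

theorem Gn_eq {s : ℕ} (h1 : ∀ t a, (univ.filter (fun y => π t y = a)).card = s)
    (t : Λ) (y y' : E) (j j' : ZMod q) :
    Gn π (some t) (some t) y y' j j' = if π t y - j = π t y' - j' then s else 0 := by
  unfold Gn
  by_cases h : π t y - j = π t y' - j'
  · rw [if_pos h, ← h1 t (π t y - j)]
    refine congrArg card (filter_congr (fun x _ => ?_))
    simp only [Option.some.injEq, exists_eq_left']
    constructor
    · rintro ⟨h3, -⟩
      rw [h3, add_sub_cancel_right]
    · intro h3
      refine ⟨by rw [h3, sub_add_cancel], by rw [h3, h, sub_add_cancel]⟩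
  · rw [if_neg h, card_eq_zero, filter_eq_empty_iff]
    rintro x - ⟨⟨t1, ht1, h3⟩, t2, ht2, h4⟩
    rw [Option.some.injEq] at ht1 ht2
    subst ht1
    subst ht2
    apply h
    rw [h3, h4, add_sub_cancel_right, add_sub_cancel_right]

theorem Gn_shift {s μ : ℕ} (h1 : ∀ t a, (univ.filter (fun y => π t y = a)).card = s)
    (h2 : ∀ t t', t ≠ t' → ∀ a a', (univ.filter (fun y => π t y = a ∧ π t' y = a')).card = μ)
    (o o' : Option Λ) (y y' : E) (j j' : ZMod q) :
    Gn π o o' y y' (j + 1) (j' + 1) = Gn π o o' y y' j j' := by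
  rcases o with _ | t
  · rw [Gn_none_left, Gn_none_left]
  rcases o' with _ | t'
  · rw [Gn_none_right, Gn_none_right]
  by_cases ht : t = t'
  · subst ht
    rw [Gn_eq h1, Gn_eq h1]
    have h3 : (π t y - (j + 1) = π t y' - (j' + 1)) ↔ (π t y - j = π t y' - j') := by
      rw [← sub_sub, ← sub_sub, sub_left_inj]
    simp only [h3]
  · rw [Gn_ne h2 ht, Gn_ne h2 ht]

theorem net_lift [Nonempty E] {F : Type} [Field F] [Fintype F] [DecidableEq F]
    (π : Λ → E → ZMod q) (r s μ l0 : ℕ) (hr : Fintype.card Λ = r) (h2r : 2 ≤ r)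
    (hs : 1 ≤ s) (h1 : ∀ t a, (univ.filter (fun y => π t y = a)).card = s)
    (h2 : ∀ t t', t ≠ t' → ∀ a a', (univ.filter (fun y => π t y = a ∧ π t' y = a')).card = μ)
    (h3 : ∀ x x', x ≠ x' → (univ.filter (fun t => π t x = π t x')).card = l0)
    (hμ : 0 < μ) (heq : (r - 1) * μ = s * l0) (hrq : r = q * l0 + 1)
    (hF : Fintype.card F = r ^ 2) :
    Coloured ((r ^ 2 + 1) * ((r + 1) * Fintype.card E)) (r ^ 2 * (r * s)) (r ^ 2 + 1) := by
  classical
  have hq : 0 < q := Nat.pos_of_ne_zero (NeZero.ne q)
  have hn : NeZero (r + 1) := ⟨by omega⟩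
  have hqn : NeZero (q * (r + 1)) := ⟨(Nat.mul_pos hq (by omega)).ne'⟩
  have hl0 : 0 < l0 := by
    have h4 : 0 < s * l0 := by rw [← heq]; exact Nat.mul_pos (by omega) hμ
    exact Nat.pos_of_mul_pos_left h4
  obtain ⟨χ, hχ1, hχ2⟩ := exists_log (F := F) (q * (r + 1)) l0 (by
    rw [hF]
    have h4 : r ^ 2 = (q * (r + 1)) * l0 + 1 := by
      have h5 : (q * (r + 1)) * l0 = (r + 1) * (q * l0) := by ring
      have h6 : q * l0 = r - 1 := by omega
      rw [h5, h6]
      obtain ⟨m, rfl⟩ : ∃ m, r = m + 1 := ⟨r - 1, by omega⟩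
      rw [Nat.add_sub_cancel]
      ring
    omega)
  obtain ⟨Ψ, e, he⟩ := exists_split (r + 1) q
  have hcardφ : Fintype.card (ZMod (r + 1)) = Fintype.card (Option Λ) := by
    rw [ZMod.card, Fintype.card_option, hr]
  let φ : ZMod (r + 1) ≃ Option Λ := Fintype.equivOfCardEq hcardφ
  let inc : ZMod (r + 1) × E → ZMod (q * (r + 1)) → E → Prop := fun b u x =>
    ∃ t, φ (b.1 - (Ψ u).1) = some t ∧ π t b.2 = π t x + (Ψ u).2
  have hFn : ∀ h y h' y' u u', Fn inc (h, y) (h', y') u u' =
      Gn π (φ (h - (Ψ u).1)) (φ (h' - (Ψ u').1)) y y' (Ψ u).2 (Ψ u').2 := by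
    intro h y h' y' u u'
    rfl
  have hE : Fintype.card E = q * s := by
    have ht : Nonempty Λ := Fintype.card_pos_iff.1 (by omega)
    obtain ⟨t⟩ := ht
    have h4 := card_eq_sum_card_fiberwise (s := (univ : Finset E)) (f := π t) (t := univ)
      (fun x _ => mem_coe.2 (mem_univ _))
    rw [sum_congr rfl (fun a _ => h1 t a), sum_const, card_univ, card_univ, ZMod.card,
      smul_eq_mul] at h4
    exact h4
  have hsumφ : ∀ (K : Option Λ → ℕ) (h : ZMod (r + 1)),
      ∑ a, K (φ (h - a)) = ∑ o, K o := by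
    intro K h
    exact Fintype.sum_equiv ((Equiv.subLeft h).trans φ) _ _ (fun a => rfl)
  have hsumΨ : ∀ (K : ZMod (r + 1) → ZMod q → ℕ),
      ∑ u, K (Ψ u).1 (Ψ u).2 = ∑ a, ∑ j, K a j := by
    intro K
    rw [← Fintype.sum_prod_type' (f := K)]
    exact Fintype.sum_equiv Ψ _ _ (fun u => rfl)
  have hmain := coloured_lift (F := F) (U := ZMod (q * (r + 1))) (𝔅 := ZMod (r + 1) × E) (E := E)
    inc χ (univ.filter (fun u => (Ψ u).2 = 0)) e q l0 r (q * (s * l0)) (r * s)
    (r ^ 2 * (s * l0)) hq (Nat.mul_pos (by omega) hs)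
    (Nat.mul_pos (Nat.pow_pos (by omega)) (Nat.mul_pos hs hl0)) Fintype.card_pos ?_ hχ1 hχ2
    (fun H hH => sum_split Ψ e he H hH) ?_ ?_ ?_ ?_ ?_ ?_
  · rw [hF, Fintype.card_prod, ZMod.card] at hmain
    exact hmain
  · rw [card_zero_level Ψ e he, Fintype.card_prod, ZMod.card]
  · rintro ⟨h, y⟩ ⟨h', y'⟩ u u'
    rw [hFn, hFn, he, he]
    exact Gn_shift h1 h2 _ _ _ _ _ _
  · rintro ⟨h, y⟩ x
    rw [card_filter, hsumΨ (fun a j => if ∃ t, φ (h - a) = some t ∧ π t y = π t x + j then 1
      else 0)]
    have h4 : ∀ a, ∑ j, (if ∃ t, φ (h - a) = some t ∧ π t y = π t x + j then 1 else 0) =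
        (fun o : Option Λ => if o = none then 0 else 1) (φ (h - a)) := by
      intro a
      rcases hφ : φ (h - a) with _ | t
      · simp
      · simp only [Option.some.injEq, exists_eq_left', reduceCtorEq, if_false]
        rw [sum_eq_single (π t y - π t x)]
        · rw [if_pos (by ring)]
        · intro j _ hj
          rw [if_neg]
          intro h5
          apply hj
          rw [h5, add_sub_cancel_left]
        · intro h5
          exact absurd (mem_univ _) h5
    rw [sum_congr rfl (fun a _ => h4 a),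
      hsumφ (fun o : Option Λ => if o = none then 0 else 1) h, Fintype.sum_option]
    simp [hr]
  · rintro ⟨h, y⟩ ⟨h', y'⟩ hne
    have h4 : ∑ u, Fn inc (h, y) (h', y') u u =
        ∑ a, ∑ j, Gn π (φ (h - a)) (φ (h' - a)) y y' j j := by
      rw [← hsumΨ (fun a j => Gn π (φ (h - a)) (φ (h' - a)) y y' j j)]
      exact sum_congr rfl (fun u _ => hFn _ _ _ _ _ _)
    rw [h4]
    by_cases hh : h = h'
    · subst hh
      have hyy : y ≠ y' := fun h => hne (by rw [h])
      have h5 : ∀ a, ∑ j, Gn π (φ (h - a)) (φ (h - a)) y y' j j =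
          (fun o : Option Λ => ∑ j, Gn π o o y y' j j) (φ (h - a)) := fun a => rfl
      rw [sum_congr rfl (fun a _ => h5 a),
        hsumφ (fun o : Option Λ => ∑ j, Gn π o o y y' j j) h, Fintype.sum_option]
      have h6 : ∀ j, Gn π none none y y' j j = 0 := fun j => Gn_none_left _ _ _ _ _
      have h7 : ∀ t, ∑ j, Gn π (some t) (some t) y y' j j = if π t y = π t y' then q * s else 0 := by
        intro t
        by_cases ht : π t y = π t y'
        · rw [if_pos ht, sum_congr rfl (g := fun _ => s), sum_const, card_univ, ZMod.card,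
            smul_eq_mul]
          intro j _
          rw [Gn_eq h1, if_pos (by rw [ht])]
        · rw [if_neg ht]
          apply sum_eq_zero
          intro j _
          rw [Gn_eq h1, if_neg]
          rw [sub_left_inj]
          exact ht
      rw [sum_congr rfl (fun j _ => h6 j), sum_const_zero, zero_add,
        sum_congr rfl (fun t _ => h7 t), ← sum_filter, sum_const, h3 y y' hyy, smul_eq_mul]
      ring
    · have h5 : ∀ a, ∑ j, Gn π (φ (h - a)) (φ (h' - a)) y y' j j =
          if a ∈ ({h - φ.symm none, h' - φ.symm none} : Finset (ZMod (r + 1))) then 0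
          else q * μ := by
        intro a
        by_cases ha : a ∈ ({h - φ.symm none, h' - φ.symm none} : Finset (ZMod (r + 1)))
        · rw [if_pos ha]
          apply sum_eq_zero
          intro j _
          rw [mem_insert, mem_singleton] at ha
          rcases ha with ha | ha
          · have h6 : φ (h - a) = none := by
              rw [ha, sub_sub_cancel, Equiv.apply_symm_apply]
            rw [h6, Gn_none_left]
          · have h6 : φ (h' - a) = none := by
              rw [ha, sub_sub_cancel, Equiv.apply_symm_apply]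
            rw [h6, Gn_none_right]
        · rw [if_neg ha]
          rw [mem_insert, mem_singleton, not_or] at ha
          have h6 : φ (h - a) ≠ none := by
            intro h7
            apply ha.1
            rw [← h7, Equiv.symm_apply_apply, sub_sub_cancel]
          have h8 : φ (h' - a) ≠ none := by
            intro h7
            apply ha.2
            rw [← h7, Equiv.symm_apply_apply, sub_sub_cancel]
          obtain ⟨t, ht⟩ := Option.ne_none_iff_exists'.1 h6
          obtain ⟨t', ht'⟩ := Option.ne_none_iff_exists'.1 h8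
          have htt : t ≠ t' := by
            rintro rfl
            rw [← ht'] at ht
            exact hh (sub_left_injective (φ.injective ht))
          rw [ht, ht', sum_congr rfl (g := fun _ => μ) (fun j _ => Gn_ne h2 htt _ _ _ _),
            sum_const, card_univ, ZMod.card, smul_eq_mul]
      rw [sum_congr rfl (fun a _ => h5 a), sum_ite, sum_const_zero, zero_add, sum_const,
        smul_eq_mul, filter_not, card_sdiff_of_subset (filter_subset _ _), card_univ, ZMod.card]
      have h6 : (univ.filter (fun a => a ∈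
          ({h - φ.symm none, h' - φ.symm none} : Finset (ZMod (r + 1))))).card = 2 := by
        rw [filter_mem_eq_inter, univ_inter, card_pair]
        intro h7
        exact hh (sub_left_injective h7)
      rw [h6, ← heq]
      have h8 : r + 1 - 2 = r - 1 := by omega
      rw [h8]
      ring
  · intro u x
    rw [card_filter, Fintype.sum_prod_type]
    have h4 : ∀ h, ∑ y, (if inc (h, y) u x then 1 else 0) =
        (fun o : Option Λ => if o = none then 0 else s) (φ (h - (Ψ u).1)) := by
      intro h
      rcases hφ : φ (h - (Ψ u).1) with _ | t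
      · simp [inc, hφ]
      · simp only [reduceCtorEq, if_false]
        rw [← card_filter, ← h1 t (π t x + (Ψ u).2)]
        refine congrArg card (filter_congr (fun y _ => ?_))
        simp only [inc, hφ, Option.some.injEq, exists_eq_left']
    rw [sum_congr rfl (fun h _ => h4 h)]
    have h5 : ∑ h : ZMod (r + 1), (fun o : Option Λ => if o = none then 0 else s)
        (φ (h - (Ψ u).1)) = ∑ o : Option Λ, (if o = none then 0 else s) :=
      Fintype.sum_equiv ((Equiv.subRight (Ψ u).1).trans φ) _ _ (fun h => rfl)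
    rw [h5, Fintype.sum_option]
    simp [hr]
  · rw [hF]; ring
  · rw [hE]; ring

end

end Pool.Agent.Helper63.UC
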