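import Pool.Agent.Helper63.UC.Affine
import Pool.Agent.Helper63.UC.NetLift

/-!
# Affine resolvable designs
-/

set_option autoImplicit false

namespace Pool.Agent.Helper63.UC

open Finset Module
open scoped LinearAlgebra.Projectivization

/-- `π` is an affine resolvable design on the finite set `E`: there are `q * l0 + 1` partitions
`π t` of `E` into `q` classes of `q * μ` points, classes of different partitions meet in `μ` points,
and two distinct points are in a common class of exactly `l0` of the partitions. -/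
structure IsAffineResolvable {Λ E : Type} [Fintype Λ] [Fintype E] (q μ l0 : ℕ)
    (π : Λ → E → Fin q) : Prop where
  card_part : Fintype.card Λ = q * l0 + 1
  card_class : ∀ t a, (univ.filter (fun y => π t y = a)).card = q * μ
  card_inter : ∀ t t', t ≠ t' → ∀ a a',
    (univ.filter (fun y => π t y = a ∧ π t' y = a')).card = μ
  card_common : ∀ x x', x ≠ x' → (univ.filter (fun t => π t x = π t x')).card = l0

section

variable {Λ E : Type} [Fintype Λ] [Fintype E] {q μ l0 : ℕ} {π : Λ → E → Fin q}

theorem IsAffineResolvable.card_points (h : IsAffineResolvable q μ l0 π) :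
    Fintype.card E = q * (q * μ) := by
  have ht : Nonempty Λ := Fintype.card_pos_iff.1 (by rw [h.card_part]; omega)
  obtain ⟨t⟩ := ht
  have h1 := card_eq_sum_card_fiberwise (s := (univ : Finset E)) (f := π t) (t := univ)
    (fun x _ => mem_coe.2 (mem_univ _))
  rw [sum_congr rfl (fun a _ => h.card_class t a), sum_const, card_univ, card_univ,
    Fintype.card_fin, smul_eq_mul] at h1
  exact h1

theorem IsAffineResolvable.coloured (h : IsAffineResolvable q μ l0 π) (hq : 1 ≤ q) (hμ : 1 ≤ μ)
    (hl0 : 1 ≤ l0) :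
    Coloured ((q * l0 + 2) * (q ^ 2 * μ)) ((q * l0 + 1) * (q * μ)) (q * l0 + 2) := by
  classical
  have hE : Fintype.card E = q ^ 2 * μ := by rw [h.card_points]; ring
  have hpos : 0 < Fintype.card E := by rw [hE]; positivity
  have hE0 : Nonempty E := Fintype.card_pos_iff.1 hpos
  have hql : 0 < q * l0 := Nat.mul_pos hq hl0
  have h1 := coloured_net π (q * l0 + 1) (q * μ) μ l0 h.card_part (by omega)
    (Nat.mul_pos hq hμ) (fun t x => by
      rw [← h.card_class t (π t x)]
      exact congrArg card (filter_congr (fun y _ => eq_comm)))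
    (fun t t' htt x x' => by
      rw [← h.card_inter t t' htt (π t x) (π t' x')]
      refine congrArg card (filter_congr (fun y _ => ?_))
      rw [eq_comm, eq_comm (a := π t' x')]) h.card_common hμ (by
      rw [Nat.add_sub_cancel]; ring)
  rw [hE] at h1
  exact h1

theorem IsAffineResolvable.coloured_lift (h : IsAffineResolvable q μ l0 π) (hq : 1 ≤ q)
    (hμ : 1 ≤ μ) (hl0 : 1 ≤ l0) {F : Type} [Field F] [Fintype F] [DecidableEq F]
    (hF : Fintype.card F = (q * l0 + 1) ^ 2) :
    Coloured (((q * l0 + 1) ^ 2 + 1) * ((q * l0 + 2) * (q ^ 2 * μ)))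
      ((q * l0 + 1) ^ 2 * ((q * l0 + 1) * (q * μ))) ((q * l0 + 1) ^ 2 + 1) := by
  classical
  have hE : Fintype.card E = q ^ 2 * μ := by rw [h.card_points]; ring
  have hpos : 0 < Fintype.card E := by rw [hE]; positivity
  have hE0 : Nonempty E := Fintype.card_pos_iff.1 hpos
  have hql : 0 < q * l0 := Nat.mul_pos hq hl0
  have hq0 : NeZero q := ⟨by omega⟩
  let e : Fin q ≃ ZMod q := Fintype.equivOfCardEq (by rw [ZMod.card, Fintype.card_fin])
  have h1 := net_lift (F := F) (fun t x => e (π t x)) (q * l0 + 1) (q * μ) μ l0 h.card_part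
    (by omega) (Nat.mul_pos hq hμ) (fun t a => by
      rw [← h.card_class t (e.symm a)]
      refine congrArg card (filter_congr (fun y _ => ?_))
      rw [Equiv.eq_symm_apply])
    (fun t t' htt a a' => by
      rw [← h.card_inter t t' htt (e.symm a) (e.symm a')]
      refine congrArg card (filter_congr (fun y _ => ?_))
      rw [Equiv.eq_symm_apply, Equiv.eq_symm_apply])
    (fun x x' hxx => by
      rw [← h.card_common x x' hxx]
      refine congrArg card (filter_congr (fun t _ => ?_))
      rw [e.apply_eq_iff_eq]) hμ (by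
      rw [Nat.add_sub_cancel]; ring) rfl hF
  rw [hE] at h1
  exact h1

end

/-- The affine geometries. -/
theorem exists_affine {K : Type} [Field K] [Fintype K] [DecidableEq K] (m : ℕ) :
    ∃ (Λ E : Type) (_ : Fintype Λ) (_ : Fintype E)
      (π : Λ → E → Fin (Fintype.card K)),
      IsAffineResolvable (Fintype.card K) (Fintype.card K ^ m)
        (∑ i ∈ range (m + 1), Fintype.card K ^ i) π := by
  classical
  set q := Fintype.card K with hq
  have hq2 : 2 ≤ q := Fintype.one_lt_card
  let E := Fin (m + 2) → K
  have hfin : Finite (Dual K E) := Module.finite_of_finite K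
  haveI : Fintype (Dual K E) := Fintype.ofFinite _
  haveI : Fintype (ℙ K (Dual K E)) := Fintype.ofFinite _
  have hE : Fintype.card E = q ^ (m + 2) := by simp [E, hq]
  have hD : finrank K (Dual K E) = m + 2 := by simp [E]
  have hcardD : Fintype.card (Dual K E) = q ^ (m + 2) := by
    rw [card_eq_pow_finrank (K := K), hD]
  have hΛ : Fintype.card (ℙ K (Dual K E)) = ∑ i ∈ range (m + 2), q ^ i := by
    rw [← Nat.card_eq_fintype_card, Projectivization.card_of_finrank K (Dual K E) hD,
      Nat.card_eq_fintype_card]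
  have hgeom' : (∑ i ∈ range (m + 1), q ^ i) * (q - 1) = q ^ (m + 1) - 1 := by
    rw [Nat.geomSum_eq hq2]
    exact Nat.div_mul_cancel (by simpa using Nat.sub_dvd_pow_sub_pow q 1 (m + 1))
  have hsum : ∑ i ∈ range (m + 2), q ^ i = q * (∑ i ∈ range (m + 1), q ^ i) + 1 := by
    rw [sum_range_succ', mul_sum]
    simp only [pow_zero, pow_succ']
  let ε : K ≃ Fin q := Fintype.equivOfCardEq (by rw [Fintype.card_fin])
  refine ⟨ℙ K (Dual K E), E, inferInstance, inferInstance,
    fun t x => ε ((t.rep : E →ₗ[K] K) x), ⟨?_, ?_, ?_, ?_⟩⟩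
  · rw [hΛ, hsum]
  · intro t a
    have h1 := card_level (f := (t.rep : E →ₗ[K] K)) t.rep_nonzero (ε.symm a)
    rw [hE, ← hq, pow_succ q (m + 1)] at h1
    have h2 := Nat.eq_of_mul_eq_mul_right (by omega) h1
    rw [← pow_succ', ← h2]
    refine congrArg card (filter_congr (fun y _ => ?_))
    rw [Equiv.eq_symm_apply]
  · intro t t' htt a a'
    have h1 := card_level_two (indep_rep htt) (ε.symm a) (ε.symm a')
    rw [hE, ← hq, pow_add q m 2] at h1
    have h2 := Nat.eq_of_mul_eq_mul_right (Nat.pow_pos (by omega)) h1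
    rw [← h2]
    refine congrArg card (filter_congr (fun y _ => ?_))
    rw [Equiv.eq_symm_apply, Equiv.eq_symm_apply]
  · intro x x' hxx
    -- functionals vanishing at `x - x'`
    have hz : x - x' ≠ 0 := sub_ne_zero.2 hxx
    have h1 := card_proj (K := K) (W := Dual K E) (fun f => f ≠ 0 ∧ f (x - x') = 0)
      (fun h => h.1 rfl) (fun c w hc hw => ⟨smul_ne_zero hc hw.1, by simp [hw.2]⟩)
    have h2 : (univ.filter (fun f : Dual K E => f (x - x') = 0)).card = q ^ (m + 1) := by
      have h3 : (LinearMap.applyₗ (x - x') : (E →ₗ[K] K) →ₗ[K] K) ≠ 0 := by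
        intro h4
        apply hz
        refine (Module.forall_dual_apply_eq_zero_iff K (x - x')).1 (fun f => ?_)
        exact LinearMap.congr_fun h4 f
      have h5 := card_level (K := K) (W := Dual K E) h3 0
      rw [hcardD, ← hq, pow_succ q (m + 1)] at h5
      exact Nat.eq_of_mul_eq_mul_right (by omega) h5
    have h6 : (univ.filter (fun f : Dual K E => f ≠ 0 ∧ f (x - x') = 0)).card =
        q ^ (m + 1) - 1 := by
      rw [← h2]
      have h7 : univ.filter (fun f : Dual K E => f ≠ 0 ∧ f (x - x') = 0) =
          (univ.filter (fun f : Dual K E => f (x - x') = 0)).erase 0 := by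
        ext f
        simp
      rw [h7, card_erase_of_mem (by simp)]
    have h8 : (univ.filter (fun p : ℙ K (Dual K E) => p.rep ≠ 0 ∧ p.rep (x - x') = 0)).card =
        (univ.filter (fun p : ℙ K (Dual K E) =>
          ε ((p.rep : E →ₗ[K] K) x) = ε ((p.rep : E →ₗ[K] K) x'))).card := by
      refine congrArg card (filter_congr (fun p _ => ?_))
      rw [map_sub, sub_eq_zero, ε.apply_eq_iff_eq]
      exact ⟨fun h => h.2, fun h => ⟨p.rep_nonzero, h⟩⟩
    rw [h6, h8, ← hq] at h1
    rw [← hgeom'] at h1
    exact (Nat.eq_of_mul_eq_mul_right (by omega) h1).symm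

end Pool.Agent.Helper63.UC
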