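import Mathlib

/-!
# Counting in finite vector spaces
-/

set_option autoImplicit false

namespace Pool.Agent.Helper63.UC

open Finset Module
open scoped LinearAlgebra.Projectivization

section

variable {K W : Type} [Field K] [Fintype K] [DecidableEq K] [AddCommGroup W] [Module K W]
  [Fintype W] [DecidableEq W]

theorem card_fiber {A B : Type} [AddCommGroup A] [Fintype A] [DecidableEq B] [AddCommGroup B]
    [Fintype B] (f : A →+ B) (hf : Function.Surjective f) (b : B) :
    (univ.filter (fun a => f a = b)).card * Fintype.card B = Fintype.card A := by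
  have h1 : ∀ b', (univ.filter (fun a => f a = b')).card =
      (univ.filter (fun a => f a = b)).card := fun b' =>
    AddMonoidHom.card_fiber_eq_of_mem_range f (hf b') (hf b)
  have h2 := card_eq_sum_card_fiberwise (s := (univ : Finset A)) (f := f) (t := univ)
    (fun x _ => mem_coe.2 (mem_univ _))
  rw [sum_congr rfl (fun b' _ => h1 b'), sum_const, card_univ, card_univ, smul_eq_mul] at h2
  rw [h2, mul_comm]

theorem card_level {f : W →ₗ[K] K} (hf : f ≠ 0) (u : K) :
    (univ.filter (fun w => f w = u)).card * Fintype.card K = Fintype.card W :=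
  card_fiber f.toAddMonoidHom (LinearMap.surjective hf) u

/-- Two functionals are independent. -/
def Indep (f g : W →ₗ[K] K) : Prop := ∀ a b : K, a • f + b • g = 0 → a = 0 ∧ b = 0

omit [Fintype K] [DecidableEq K] [Fintype W] [DecidableEq W] in
theorem pair_surjective {f g : W →ₗ[K] K} (h : Indep f g) :
    Function.Surjective (f.prod g) := by
  rw [← LinearMap.range_eq_top]
  by_contra hne
  obtain ⟨φ, hφ0, hφ⟩ := Submodule.exists_le_ker_of_lt_top _ (lt_top_iff_ne_top.2 hne)
  apply hφ0
  have h1 : ∀ w, f w * φ (1, 0) + g w * φ (0, 1) = 0 := by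
    intro w
    have h2 : (f w, g w) ∈ LinearMap.ker φ := hφ ⟨w, rfl⟩
    rw [LinearMap.mem_ker] at h2
    have h3 : (f w, g w) = f w • ((1, 0) : K × K) + g w • ((0, 1) : K × K) := by
      ext <;> simp
    rw [h3, map_add, map_smul, map_smul, smul_eq_mul, smul_eq_mul] at h2
    exact h2
  obtain ⟨h4, h5⟩ := h (φ (1, 0)) (φ (0, 1)) (by
    ext w
    have := h1 w
    simp only [LinearMap.add_apply, LinearMap.smul_apply, smul_eq_mul, LinearMap.zero_apply]
    linear_combination this)
  ext
  · simpa using h4
  · simpa using h5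

theorem card_level_two {f g : W →ₗ[K] K} (h : Indep f g) (u v : K) :
    (univ.filter (fun w => f w = u ∧ g w = v)).card * (Fintype.card K) ^ 2 = Fintype.card W := by
  have h1 := card_fiber (f.prod g).toAddMonoidHom (pair_surjective h) (u, v)
  rw [Fintype.card_prod, ← sq] at h1
  rw [← h1]
  congr 2
  apply filter_congr
  intro w _
  simp

end

section

variable {K W : Type} [Field K] [Fintype K] [DecidableEq K] [AddCommGroup W] [Module K W]
  [Fintype W] [DecidableEq W] [Fintype (ℙ K W)] [DecidableEq (ℙ K W)]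

theorem card_mk (p : ℙ K W) :
    (univ.filter (fun w : W => ∃ h : w ≠ 0, Projectivization.mk K w h = p)).card =
      Fintype.card K - 1 := by
  have h1 : univ.filter (fun w : W => ∃ h : w ≠ 0, Projectivization.mk K w h = p) =
      (univ.filter (fun c : K => c ≠ 0)).image (fun c => c • p.rep) := by
    ext w
    simp only [mem_filter, mem_univ, true_and, mem_image]
    constructor
    · rintro ⟨h, rfl⟩
      obtain ⟨a, ha⟩ := Projectivization.exists_smul_eq_mk_rep K w h
      refine ⟨((a⁻¹ : Kˣ) : K), (a⁻¹).ne_zero, ?_⟩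
      rw [← ha]
      show ((a⁻¹ : Kˣ) : K) • ((a : Kˣ) : K) • w = w
      rw [smul_smul, Units.inv_mul, one_smul]
    · rintro ⟨c, hc, rfl⟩
      have h : c • p.rep ≠ 0 := smul_ne_zero hc p.rep_nonzero
      refine ⟨h, ?_⟩
      conv_rhs => rw [← p.mk_rep]
      rw [Projectivization.mk_eq_mk_iff']
      exact ⟨c, rfl⟩
  rw [h1, card_image_of_injective _ (smul_left_injective K p.rep_nonzero)]
  rw [filter_ne', card_erase_of_mem (mem_univ _), card_univ]

/-- Counting points of the projective space. -/
theorem card_proj (P : W → Prop) [DecidablePred P] (h0 : ¬ P 0)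
    (hP : ∀ (c : K) (w : W), c ≠ 0 → P w → P (c • w)) :
    (univ.filter P).card =
      (univ.filter (fun p : ℙ K W => P p.rep)).card * (Fintype.card K - 1) := by
  have h1 : ∀ w : W, ∀ h : w ≠ 0, (P (Projectivization.mk K w h).rep ↔ P w) := by
    intro w h
    obtain ⟨a, ha⟩ := Projectivization.exists_smul_eq_mk_rep K w h
    rw [← ha]
    constructor
    · intro h2
      have h3 := hP ((a⁻¹ : Kˣ) : K) _ (a⁻¹).ne_zero h2
      have h4 : ((a⁻¹ : Kˣ) : K) • (a • w) = w := by
        show ((a⁻¹ : Kˣ) : K) • ((a : Kˣ) : K) • w = w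
        rw [smul_smul, Units.inv_mul, one_smul]
      rwa [h4] at h3
    · intro h2
      exact hP (a : K) w a.ne_zero h2
  have h2 : univ.filter P = (univ.filter (fun p : ℙ K W => P p.rep)).biUnion
      (fun p => univ.filter (fun w : W => ∃ h : w ≠ 0, Projectivization.mk K w h = p)) := by
    ext w
    simp only [mem_filter, mem_univ, true_and, mem_biUnion]
    constructor
    · intro hw
      have h : w ≠ 0 := fun h => h0 (h ▸ hw)
      exact ⟨Projectivization.mk K w h, (h1 w h).2 hw, h, rfl⟩
    · rintro ⟨p, hp, h, rfl⟩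
      exact (h1 w h).1 hp
  rw [h2, card_biUnion, sum_congr rfl (fun p _ => card_mk p), sum_const, smul_eq_mul]
  intro p _ p' _ hpp
  refine disjoint_left.2 (fun w hw hw' => ?_)
  simp only [mem_filter, mem_univ, true_and] at hw hw'
  obtain ⟨h, rfl⟩ := hw
  obtain ⟨h', rfl⟩ := hw'
  exact hpp rfl

end

end Pool.Agent.Helper63.UC
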