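import Pool.Agent.Helper63.UC.Net
import Pool.Agent.Helper63.UC.Lin

/-!
# The affine geometries: McFarland parameters
-/

set_option autoImplicit false

namespace Pool.Agent.Helper63.UC

open Finset Module
open scoped LinearAlgebra.Projectivization

section

variable {K : Type} [Field K] [Fintype K] [DecidableEq K] {n : ℕ}

theorem indep_rep {W : Type} [AddCommGroup W] [Module K W] {p p' : ℙ K (Dual K W)}
    (h : p ≠ p') : Indep (p.rep : W →ₗ[K] K) p'.rep := by
  intro a b hab
  by_cases ha : a = 0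
  · refine ⟨ha, ?_⟩
    rw [ha, zero_smul, zero_add] at hab
    exact (smul_eq_zero.1 hab).resolve_right p'.rep_nonzero
  · exfalso
    apply h
    rw [← p.mk_rep, ← p'.mk_rep, Projectivization.mk_eq_mk_iff']
    refine ⟨-(a⁻¹ * b), ?_⟩
    have h1 : a • (p.rep : W →ₗ[K] K) = -(b • p'.rep) := eq_neg_of_add_eq_zero_left hab
    have h2 : p.rep = a⁻¹ • (a • p.rep) := by rw [smul_smul, inv_mul_cancel₀ ha, one_smul]
    rw [h2, h1, smul_neg, smul_smul, neg_smul]

theorem coloured_affine (hn : 2 ≤ n) :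
    Coloured ((∑ i ∈ range n, Fintype.card K ^ i + 1) * Fintype.card K ^ n)
      ((∑ i ∈ range n, Fintype.card K ^ i) * Fintype.card K ^ (n - 1))
      (∑ i ∈ range n, Fintype.card K ^ i + 1) := by
  classical
  set q := Fintype.card K with hq
  have hq2 : 2 ≤ q := Fintype.one_lt_card
  let E := Fin n → K
  have hfin : Finite (Dual K E) := Module.finite_of_finite K
  haveI : Fintype (Dual K E) := Fintype.ofFinite _
  haveI : Fintype (ℙ K (Dual K E)) := Fintype.ofFinite _
  have hE : Fintype.card E = q ^ n := by simp [E, hq]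
  have hD : finrank K (Dual K E) = n := by simp [E]
  have hcardD : Fintype.card (Dual K E) = q ^ n := by
    rw [card_eq_pow_finrank (K := K), hD]
  have hΛ : Fintype.card (ℙ K (Dual K E)) = ∑ i ∈ range n, q ^ i := by
    rw [← Nat.card_eq_fintype_card, Projectivization.card_of_finrank K (Dual K E) hD,
      Nat.card_eq_fintype_card]
  have hgeom : (∑ i ∈ range n, q ^ i) * (q - 1) = q ^ n - 1 := by
    rw [Nat.geomSum_eq hq2]
    exact Nat.div_mul_cancel (by simpa using Nat.sub_dvd_pow_sub_pow q 1 n)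
  have hgeom' : (∑ i ∈ range (n - 1), q ^ i) * (q - 1) = q ^ (n - 1) - 1 := by
    rw [Nat.geomSum_eq hq2]
    exact Nat.div_mul_cancel (by simpa using Nat.sub_dvd_pow_sub_pow q 1 (n - 1))
  obtain ⟨m, rfl⟩ : ∃ m, n = m + 2 := ⟨n - 2, by omega⟩
  have hsum : ∑ i ∈ range (m + 2), q ^ i = q * (∑ i ∈ range (m + 1), q ^ i) + 1 := by
    rw [sum_range_succ', mul_sum]
    simp only [pow_zero, pow_succ']
  have h := coloured_net (Λ := ℙ K (Dual K E)) (E := E) (Q := K)
    (fun t x => (t.rep : E →ₗ[K] K) x) (∑ i ∈ range (m + 2), q ^ i) (q ^ (m + 1)) (q ^ m)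
    (∑ i ∈ range (m + 1), q ^ i) hΛ ?_ (Nat.one_le_pow _ _ (by omega)) ?_ ?_ ?_
    (Nat.pow_pos (by omega)) ?_
  · rw [hE] at h
    exact h
  · rw [hsum]
    have : 1 ≤ ∑ i ∈ range (m + 1), q ^ i := by
      rw [sum_range_succ']
      simp
    nlinarith
  · intro t x
    have h1 := card_level (f := (t.rep : E →ₗ[K] K)) t.rep_nonzero (t.rep x)
    rw [hE, ← hq, pow_succ q (m + 1)] at h1
    have h2 := Nat.eq_of_mul_eq_mul_right (by omega) h1
    rw [← h2]
    exact congrArg card (filter_congr (fun y _ => eq_comm))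
  · intro t t' htt x x'
    have h1 := card_level_two (indep_rep htt) (t.rep x) (t'.rep x')
    rw [hE, ← hq, pow_add q m 2] at h1
    have h2 := Nat.eq_of_mul_eq_mul_right (Nat.pow_pos (by omega)) h1
    rw [← h2]
    refine congrArg card (filter_congr (fun y _ => ?_))
    rw [eq_comm, eq_comm (a := t'.rep x')]
  · intro x x' hxx
    -- functionals vanishing at `x - x'`
    have hz : x - x' ≠ 0 := sub_ne_zero.2 hxx
    have h1 := card_proj (K := K) (W := Dual K E) (fun f => f ≠ 0 ∧ f (x - x') = 0)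
      (fun h => h.1 rfl) (fun c w hc hw => ⟨smul_ne_zero hc hw.1, by simp [hw.2]⟩)
    have h2 : (univ.filter (fun f : Dual K E => f (x - x') = 0)).card = q ^ (m + 1) := by
      have h3 : (LinearMap.applyₗ (x - x') : (E →ₗ[K] K) →ₗ[K] K) ≠ 0 := by
        intro h4
        apply hz
        refine (Module.forall_dual_apply_eq_zero_iff K (x - x')).1 (fun f => ?_)
        exact LinearMap.congr_fun h4 f
      have h5 := card_level (K := K) (W := Dual K E) h3 0
      rw [hcardD, ← hq, pow_succ q (m + 1)] at h5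
      exact Nat.eq_of_mul_eq_mul_right (by omega) h5
    have h6 : (univ.filter (fun f : Dual K E => f ≠ 0 ∧ f (x - x') = 0)).card =
        q ^ (m + 1) - 1 := by
      rw [← h2]
      have h7 : univ.filter (fun f : Dual K E => f ≠ 0 ∧ f (x - x') = 0) =
          (univ.filter (fun f : Dual K E => f (x - x') = 0)).erase 0 := by
        ext f
        simp
      rw [h7, card_erase_of_mem (by simp)]
    have h8 : (univ.filter (fun p : ℙ K (Dual K E) => p.rep ≠ 0 ∧ p.rep (x - x') = 0)).card =
        (univ.filter (fun p : ℙ K (Dual K E) => p.rep x = p.rep x')).card := by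
      refine congrArg card (filter_congr (fun p _ => ?_))
      rw [map_sub, sub_eq_zero]
      exact ⟨fun h => h.2, fun h => ⟨p.rep_nonzero, h⟩⟩
    rw [h6, h8, ← hq] at h1
    have h9 : m + 2 - 1 = m + 1 := rfl
    rw [h9] at hgeom'
    rw [← hgeom'] at h1
    exact (Nat.eq_of_mul_eq_mul_right (by omega) h1).symm
  · rw [hsum, Nat.add_sub_cancel, pow_succ]
    ring

end

end Pool.Agent.Helper63.UC
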