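import Pool.Agent.Helper63.UC.Dual
import Pool.Agent.Helper63.UC.NetLift

/-!
# Lifting the coloured designs with `v = (m + 1)^2` (Bush-type Hadamard matrices)
-/

set_option autoImplicit false

namespace Pool.Agent.Helper63.UC

open Finset

theorem card_filter_iff {α : Type} [Fintype α] {P Q : α → Prop} (d1 : DecidablePred P)
    (d2 : DecidablePred Q) (h : ∀ x, P x ↔ Q x) :
    (@filter α P d1 univ).card = (@filter α Q d2 univ).card := by
  have h1 : P = Q := funext fun x => propext (h x)
  subst h1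
  rw [Subsingleton.elim d1 d2]

section

variable {E : Type} [Fintype E]

open Classical in
/-- Common elements of `X` or its complement and `Y` or its complement. -/
noncomputable def Cn (X Y : E → Prop) (j j' : ZMod 2) : ℕ :=
  (univ.filter (fun x => (if j = 0 then X x else ¬ X x) ∧ (if j' = 0 then Y x else ¬ Y x))).card

open Classical in
theorem Cn_neg {X Y : E → Prop} {s : ℕ} (hE : Fintype.card E = 2 * s)
    (hX : (univ.filter (fun x => X x)).card = s) (hY : (univ.filter (fun x => Y x)).card = s) :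
    (univ.filter (fun x => ¬ X x ∧ ¬ Y x)).card = (univ.filter (fun x => X x ∧ Y x)).card ∧
      (univ.filter (fun x => ¬ X x ∧ Y x)).card = (univ.filter (fun x => X x ∧ ¬ Y x)).card := by
  have h1 := card_filter_add_card_filter_not (s := univ.filter (fun x => X x)) (fun x => Y x)
  have h2 := card_filter_add_card_filter_not (s := univ.filter (fun x => Y x)) (fun x => X x)
  have h3 := card_filter_add_card_filter_not (s := univ.filter (fun x => ¬ X x)) (fun x => Y x)
  have h4 := card_filter_add_card_filter_not (s := (univ : Finset E)) (fun x => X x)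
  rw [filter_filter, filter_filter] at h1 h2 h3
  rw [card_univ, hE] at h4
  have h5 : (univ.filter (fun x => Y x ∧ X x)).card = (univ.filter (fun x => X x ∧ Y x)).card :=
    congrArg card (filter_congr (fun x _ => and_comm))
  have h6 : (univ.filter (fun x => Y x ∧ ¬ X x)).card =
      (univ.filter (fun x => ¬ X x ∧ Y x)).card :=
    congrArg card (filter_congr (fun x _ => and_comm))
  omega

theorem Cn_shift {X Y : E → Prop} {s : ℕ} (hE : Fintype.card E = 2 * s)
    (hX : ∀ [DecidablePred X], (univ.filter (fun x => X x)).card = s)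
    (hY : ∀ [DecidablePred Y], (univ.filter (fun x => Y x)).card = s) (j j' : ZMod 2) :
    Cn X Y (j + 1) (j' + 1) = Cn X Y j j' := by
  classical
  obtain ⟨h1, h2⟩ := Cn_neg hE hX hY
  have e0 : (0 : ZMod 2) + 1 = 1 := by decide
  have e1 : (1 : ZMod 2) + 1 = 0 := by decide
  have e2 : (1 : ZMod 2) ≠ 0 := by decide
  have hj : ∀ j : ZMod 2, j = 0 ∨ j = 1 := by decide
  unfold Cn
  rcases hj j with rfl | rfl <;> rcases hj j' with rfl | rfl
  · simp only [e0, if_true, if_neg e2]
    exact h1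
  · simp only [e0, e1, if_true, if_neg e2]
    exact h2
  · simp only [e0, e1, if_true, if_neg e2]
    exact h2.symm
  · simp only [e1, if_true, if_neg e2]
    exact h1.symm

end

theorem bush_lift {m s : ℕ} (hms : m + 1 = 2 * s) {F : Type} [Field F] [Fintype F]
    [DecidableEq F] (hF : Fintype.card F = m ^ 2)
    (h : Coloured ((m + 1) ^ 2) (m * s) (m + 1)) :
    Coloured ((m ^ 2 + 1) * (m + 1) ^ 2) (m ^ 2 * (m * s)) (m ^ 2 + 1) := by
  classical
  obtain ⟨V, β, _, _, _, B, f, hd, hu⟩ := h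
  have hVcard := hd.2.2.1
  have hBcard := hd.2.2.2.2.1
  obtain ⟨m', s', n, lam, miss, hl, hk, hv, hs0, hsm, hn, hlam, hpair, hcls, hrep, hmiss, hocc,
    hdual, hdcls⟩ := coloured_structure hd hu
  have hmm : m' = m := by omega
  subst hmm
  have hm0 : 0 < m' := by omega
  have hss : s' = s := (Nat.eq_of_mul_eq_mul_left hm0 hk).symm
  subst hss
  have hn2 : n = 2 * s' := by
    rw [sq] at hv
    have := Nat.eq_of_mul_eq_mul_left (by omega) hv
    omega
  have hq2 : NeZero (m' + 1) := ⟨by omega⟩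
  have hqq : NeZero (2 * (m' + 1)) := ⟨by omega⟩
  obtain ⟨χ, hχ1, hχ2⟩ := exists_log (F := F) (2 * (m' + 1)) (s' - 1) (by
    rw [hF]
    obtain ⟨t, rfl⟩ : ∃ t, s' = t + 1 := ⟨s' - 1, by omega⟩
    obtain rfl : m' = 2 * t + 1 := by omega
    rw [Nat.add_sub_cancel]
    have h1 : (2 * t + 1) ^ 2 = 2 * (2 * t + 1 + 1) * t + 1 := by ring
    omega)
  obtain ⟨Ψ, e, he⟩ := exists_split (m' + 1) 2
  let γ : ZMod (m' + 1) ≃ Fin (m' + 1) :=
    Fintype.equivOfCardEq (by rw [ZMod.card, Fintype.card_fin])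
  -- enumeration of the blocks
  have hψ : ∀ a : Fin (m' + 1), Nonempty (Fin n ≃ {b : β // miss b = a}) := by
    intro a
    refine ⟨Fintype.equivOfCardEq ?_⟩
    rw [Fintype.card_fin, Fintype.card_subtype, hdcls]
  let ψ : ∀ a : Fin (m' + 1), Fin n ≃ {b : β // miss b = a} := fun a => (hψ a).some
  have hcount : ∀ (a : Fin (m' + 1)) (P : β → Prop),
      (univ.filter (fun x => P (ψ a x).1)).card = (univ.filter (fun b => P b ∧ miss b = a)).card := by
    intro a P
    refine card_bij (fun x _ => (ψ a x).1) ?_ ?_ ?_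
    · intro x hx
      rw [mem_filter] at hx ⊢
      exact ⟨mem_univ _, hx.2, (ψ a x).2⟩
    · intro x _ x' _ hxx
      exact (ψ a).injective (Subtype.ext hxx)
    · intro b hb
      rw [mem_filter] at hb
      refine ⟨(ψ a).symm ⟨b, hb.2.2⟩, ?_, ?_⟩
      · rw [mem_filter, Equiv.apply_symm_apply]
        exact ⟨mem_univ _, hb.2.1⟩
      · rw [Equiv.apply_symm_apply]
  let X : V → Fin (m' + 1) → Fin n → Prop := fun p a x => p ∈ B (ψ a x).1
  have hX : ∀ p a, a ≠ f p → (univ.filter (fun x => X p a x)).card = s' := by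
    intro p a ha
    rw [← hdual p a ha]
    exact (card_filter_iff _ _ (fun _ => Iff.rfl)).trans ((hcount a (fun b => p ∈ B b)).trans
      (card_filter_iff _ _ (fun _ => Iff.rfl)))
  have hX0 : ∀ p x, ¬ X p (f p) x := by
    intro p x hx
    exact hmiss _ p hx (ψ (f p) x).2.symm
  have hE : Fintype.card (Fin n) = 2 * s' := by rw [Fintype.card_fin, hn2]
  let inc : V → ZMod (2 * (m' + 1)) → Fin n → Prop := fun p u x =>
    γ (Ψ u).1 ≠ f p ∧ (if (Ψ u).2 = 0 then X p (γ (Ψ u).1) x else ¬ X p (γ (Ψ u).1) x)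
  have hFn : ∀ p p' u u', γ (Ψ u).1 ≠ f p → γ (Ψ u').1 ≠ f p' → Fn inc p p' u u' =
      Cn (X p (γ (Ψ u).1)) (X p' (γ (Ψ u').1)) (Ψ u).2 (Ψ u').2 := by
    intro p p' u u' h1 h2
    unfold Fn Cn
    refine card_filter_iff _ _ (fun x => ?_)
    simp only [inc, ne_eq, h1, h2, not_false_eq_true, true_and]
  have hFn0 : ∀ p p' u u', γ (Ψ u).1 = f p ∨ γ (Ψ u').1 = f p' → Fn inc p p' u u' = 0 := by
    intro p p' u u' h1
    unfold Fn
    rw [card_eq_zero, filter_eq_empty_iff]
    rintro x - ⟨h2, h3⟩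
    rcases h1 with h1 | h1
    · exact h2.1 h1
    · exact h3.1 h1
  have hsumΨ : ∀ (K : ZMod (m' + 1) → ZMod 2 → ℕ),
      ∑ u, K (Ψ u).1 (Ψ u).2 = ∑ a, ∑ j, K a j := by
    intro K
    rw [← Fintype.sum_prod_type' (f := K)]
    exact Fintype.sum_equiv Ψ _ _ (fun u => rfl)
  have hsumγ : ∀ (K : Fin (m' + 1) → ℕ), ∑ a, K (γ a) = ∑ a, K a := fun K =>
    Fintype.sum_equiv γ _ _ (fun a => rfl)
  have hsum2 : ∀ K : ZMod 2 → ℕ, ∑ j, K j = K 0 + K 1 := fun K => Fin.sum_univ_two K
  have e10 : (1 : ZMod 2) ≠ 0 := by decide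
  have hmain := coloured_lift (F := F) (U := ZMod (2 * (m' + 1))) (𝔅 := V) (E := Fin n)
    inc χ (univ.filter (fun u => (Ψ u).2 = 0)) e 2 (s' - 1) m' (2 * lam) (m' * s')
    (m' ^ 2 * lam) (by norm_num) (Nat.mul_pos hm0 hs0)
    (Nat.mul_pos (Nat.pow_pos hm0) (by rw [hlam]; exact Nat.mul_pos hs0 (by omega)))
    (by rw [hVcard]; positivity) ?_ hχ1 hχ2
    (fun H hH => sum_split Ψ e he H hH) ?_ ?_ ?_ ?_ ?_ ?_
  · rw [hF, hVcard] at hmain
    exact hmain
  · rw [card_zero_level Ψ e he, Fintype.card_fin, hVcard, hv]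
  · intro p p' u u'
    by_cases h1 : γ (Ψ u).1 = f p ∨ γ (Ψ u').1 = f p'
    · rw [hFn0 p p' u u' h1, hFn0 p p' _ _ (by rw [he, he]; exact h1)]
    · rw [not_or] at h1
      rw [hFn p p' u u' h1.1 h1.2, hFn p p' _ _ (by rw [he]; exact h1.1) (by rw [he]; exact h1.2),
        he, he]
      refine Cn_shift hE ?_ ?_ _ _
      · intro _
        exact (card_filter_iff _ _ (fun _ => Iff.rfl)).trans (hX p _ h1.1)
      · intro _
        exact (card_filter_iff _ _ (fun _ => Iff.rfl)).trans (hX p' _ h1.2)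
  · intro p x
    rw [card_filter, hsumΨ (fun a j => if γ a ≠ f p ∧ (if j = 0 then X p (γ a) x else
      ¬ X p (γ a) x) then 1 else 0)]
    have h4 : ∀ a, ∑ j : ZMod 2, (if γ a ≠ f p ∧ (if j = 0 then X p (γ a) x else
        ¬ X p (γ a) x) then 1 else 0) = (fun c : Fin (m' + 1) => if c ≠ f p then 1 else 0) (γ a) := by
      intro a
      rw [hsum2]
      by_cases h5 : γ a = f p
      · simp [h5]
      · by_cases h6 : X p (γ a) x <;> simp [h5, h6]
    rw [sum_congr rfl (fun a _ => h4 a), hsumγ (fun c : Fin (m' + 1) => if c ≠ f p then 1 else 0),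
      ← card_filter, filter_ne', card_erase_of_mem (mem_univ _), card_univ, Fintype.card_fin,
      Nat.add_sub_cancel]
  · intro p p' hpp
    have h4 : ∑ u, Fn inc p p' u u = ∑ a, ∑ j : ZMod 2,
        (if γ a = f p ∨ γ a = f p' then 0 else Cn (X p (γ a)) (X p' (γ a)) j j) := by
      rw [← hsumΨ (fun a j => if γ a = f p ∨ γ a = f p' then 0 else
        Cn (X p (γ a)) (X p' (γ a)) j j)]
      refine sum_congr rfl (fun u _ => ?_)
      by_cases h1 : γ (Ψ u).1 = f p ∨ γ (Ψ u).1 = f p'
      · rw [if_pos h1, hFn0 p p' u u h1]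
      · rw [if_neg h1]
        rw [not_or] at h1
        exact hFn p p' u u h1.1 h1.2
    have h5 : ∀ a, ∑ j : ZMod 2,
        (if γ a = f p ∨ γ a = f p' then 0 else Cn (X p (γ a)) (X p' (γ a)) j j) =
        (fun c : Fin (m' + 1) => 2 * (univ.filter (fun b : β => (p ∈ B b ∧ p' ∈ B b) ∧
          miss b = c)).card) (γ a) := by
      intro a
      simp only
      have hc : (univ.filter (fun b : β => (p ∈ B b ∧ p' ∈ B b) ∧ miss b = γ a)).card =
          (univ.filter (fun x => p ∈ B (ψ (γ a) x).1 ∧ p' ∈ B (ψ (γ a) x).1)).card :=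
        (card_filter_iff _ _ (fun _ => Iff.rfl)).trans
          ((hcount (γ a) (fun b => p ∈ B b ∧ p' ∈ B b)).symm.trans
            (card_filter_iff _ _ (fun _ => Iff.rfl)))
      rw [hc, hsum2]
      by_cases h1 : γ a = f p ∨ γ a = f p'
      · rw [if_pos h1, if_pos h1]
        have h6 : (univ.filter (fun x => p ∈ B (ψ (γ a) x).1 ∧ p' ∈ B (ψ (γ a) x).1)).card = 0 := by
          rw [card_eq_zero, filter_eq_empty_iff]
          rintro x - ⟨h7, h8⟩
          rcases h1 with h1 | h1
          · rw [h1] at h7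
            exact hX0 p x h7
          · rw [h1] at h8
            exact hX0 p' x h8
        rw [h6]
      · rw [if_neg h1, if_neg h1]
        rw [not_or] at h1
        have h6 : (univ.filter (fun x => ¬ X p (γ a) x ∧ ¬ X p' (γ a) x)).card =
            (univ.filter (fun x => X p (γ a) x ∧ X p' (γ a) x)).card :=
          (card_filter_iff _ _ (fun _ => Iff.rfl)).trans ((Cn_neg (X := X p (γ a))
            (Y := X p' (γ a)) hE
            ((card_filter_iff _ _ (fun _ => Iff.rfl)).trans (hX p _ h1.1))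
            ((card_filter_iff _ _ (fun _ => Iff.rfl)).trans (hX p' _ h1.2))).1.trans
            (card_filter_iff _ _ (fun _ => Iff.rfl)))
        have h7 : Cn (X p (γ a)) (X p' (γ a)) 0 0 =
            (univ.filter (fun x => X p (γ a) x ∧ X p' (γ a) x)).card := by
          unfold Cn
          refine card_filter_iff _ _ (fun x => ?_)
          simp
        have h8 : Cn (X p (γ a)) (X p' (γ a)) 1 1 =
            (univ.filter (fun x => ¬ X p (γ a) x ∧ ¬ X p' (γ a) x)).card := by
          unfold Cn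
          refine card_filter_iff _ _ (fun x => ?_)
          rw [if_neg e10, if_neg e10]
        rw [h7, h8, h6, two_mul]
    rw [h4, sum_congr rfl (fun a _ => h5 a), hsumγ (fun c : Fin (m' + 1) => 2 *
      (univ.filter (fun b : β => (p ∈ B b ∧ p' ∈ B b) ∧ miss b = c)).card), ← mul_sum]
    congr 1
    rw [← hpair p p' hpp]
    have h6 := card_eq_sum_card_fiberwise
      (s := univ.filter (fun b : β => p ∈ B b ∧ p' ∈ B b)) (f := miss) (t := univ)
      (fun x _ => mem_coe.2 (mem_univ _))
    rw [h6]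
    refine sum_congr rfl (fun c _ => ?_)
    rw [filter_filter]
  · intro u x
    obtain ⟨b, hb⟩ : ∃ b, b = (ψ (γ (Ψ u).1) x) := ⟨_, rfl⟩
    have hb2 : miss b.1 = γ (Ψ u).1 := by rw [hb]; exact (ψ (γ (Ψ u).1) x).2
    have hj : (Ψ u).2 = 0 ∨ (Ψ u).2 = 1 := by
      have : ∀ j : ZMod 2, j = 0 ∨ j = 1 := by decide
      exact this _
    rcases hj with hj | hj
    · have h1 : univ.filter (fun p => inc p u x) = B b.1 := by
        ext p
        simp only [inc, X, mem_filter, mem_univ, true_and, hj, if_true]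
        rw [← hb]
        constructor
        · exact fun h => h.2
        · intro h
          refine ⟨fun h2 => hmiss b.1 p h (by rw [hb2, h2]), h⟩
      rw [h1, hBcard]
    · have h1 : univ.filter (fun p => inc p u x) =
          (univ \ univ.filter (fun p => f p = γ (Ψ u).1)) \ B b.1 := by
        ext p
        simp only [inc, X, mem_filter, mem_univ, true_and, hj, if_neg e10, mem_sdiff]
        rw [← hb, ne_comm]
      have h2 : B b.1 ⊆ univ \ univ.filter (fun p => f p = γ (Ψ u).1) := by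
        intro p hp
        rw [mem_sdiff, mem_filter]
        exact ⟨mem_univ _, fun h => hmiss b.1 p hp (by rw [hb2]; exact h.2)⟩
      rw [h1, card_sdiff_of_subset h2, card_sdiff_of_subset (filter_subset _ _), card_univ, hVcard,
        hcls, hBcard, hv, hn2]
      have h3 : (m' + 1) * (2 * s') = m' * s' + m' * s' + 2 * s' := by ring
      omega
  · rw [hF]; ring
  · rw [Fintype.card_fin, hn2, hlam]
    have h1 : m' - s' = s' - 1 := by omega
    rw [h1]
    ring

end Pool.Agent.Helper63.UC
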