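import Pool.Agent.Helper63.UC.Defs

/-!
# Coloured symmetric designs from orthogonal resolutions

`π t : E → Q` (`t ∈ Λ`) is a family of partitions of `E` into classes of size `s`, classes of
different partitions meet in `μ` points and two distinct points are in a common class of `l0` of the
partitions (an affine resolvable design).
-/

set_option autoImplicit false

namespace Pool.Agent.Helper63.UC

open Finset

theorem card_filter_prod' {A E : Type} [Fintype A] [Fintype E] (P : A × E → Prop)
    [DecidablePred P] :
    (univ.filter P).card = ∑ g, (univ.filter (fun y => P (g, y))).card := by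
  rw [card_filter, Fintype.sum_prod_type]
  exact sum_congr rfl (fun g _ => by rw [card_filter])

theorem coloured_net {Λ E Q : Type} [Fintype Λ] [Fintype E] [DecidableEq E] [DecidableEq Q]
    [Nonempty E] (π : Λ → E → Q) (r s μ l0 : ℕ) (hr : Fintype.card Λ = r) (h2r : 2 ≤ r)
    (hs : 1 ≤ s) (h1 : ∀ t x, (univ.filter (fun y => π t x = π t y)).card = s)
    (h2 : ∀ t t', t ≠ t' → ∀ x x',
      (univ.filter (fun y => π t x = π t y ∧ π t' x' = π t' y)).card = μ)
    (h3 : ∀ x x', x ≠ x' → (univ.filter (fun t => π t x = π t x')).card = l0)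
    (hμ : 0 < μ) (heq : (r - 1) * μ = s * l0) :
    Coloured ((r + 1) * Fintype.card E) (r * s) (r + 1) := by
  classical
  let e : Λ ≃ Fin r := Fintype.equivFinOfCardEq hr
  let φ : Fin (r + 1) ≃ Option Λ := (finSuccEquiv r).trans (Equiv.optionCongr e.symm)
  have hφ0 : φ 0 = none := by simp [φ]
  have hφ : ∀ z, φ z = none ↔ z = 0 := by
    intro z
    rw [← hφ0]
    exact φ.injective.eq_iff
  have hφs : ∀ z, z ≠ 0 → ∃ t, φ z = some t := by
    intro z hz
    have h : φ z ≠ none := fun h => hz ((hφ z).1 h)
    exact Option.ne_none_iff_exists'.1 h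
  let B : Fin (r + 1) × E → Finset (Fin (r + 1) × E) := fun b =>
    univ.filter (fun p => ∃ t, φ (b.1 - p.1) = some t ∧ π t p.2 = π t b.2)
  have hB : ∀ g y h x, (h, x) ∈ B (g, y) ↔ ∃ t, φ (g - h) = some t ∧ π t x = π t y := by
    intro g y h x
    simp [B]
  have hsE : s ≤ Fintype.card E := by
    obtain ⟨x⟩ := ‹Nonempty E›
    have ht : Nonempty Λ := Fintype.card_pos_iff.1 (by omega)
    obtain ⟨t⟩ := ht
    rw [← h1 t x]
    exact card_le_univ _
  have hE : 0 < Fintype.card E := Fintype.card_pos
  have hmain := coloured_of (V := Fin (r + 1) × E) (β := Fin (r + 1) × E) (C := Fin (r + 1))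
    ((r + 1) * Fintype.card E) (r + 1) s ((r - 1) * μ) B Prod.fst Prod.fst hs (by omega)
    (by rw [Nat.add_sub_cancel]; nlinarith) (by rw [Nat.add_sub_cancel]; nlinarith)
    (Fintype.card_fin _) (by rw [Fintype.card_prod, Fintype.card_fin])
    (by rw [Fintype.card_prod, Fintype.card_fin]) Prod.fst_surjective ?_ ?_
    (Nat.mul_pos (by omega) hμ) ?_
  · rw [Nat.add_sub_cancel] at hmain
    exact hmain
  · rintro ⟨g, y⟩ ⟨h, x⟩ hx (rfl : h = g)
    obtain ⟨t, ht, -⟩ := (hB _ _ _ _).1 hx
    rw [sub_self, hφ0] at ht
    exact absurd ht (by simp)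
  · rintro ⟨g, y⟩ c (hc : c ≠ g)
    obtain ⟨t, ht⟩ := hφs (g - c) (sub_ne_zero.2 (Ne.symm hc))
    have h4 : (B (g, y)).filter (fun p => p.1 = c) =
        (univ.filter (fun x => π t y = π t x)).image (fun x => (c, x)) := by
      ext ⟨h, x⟩
      simp only [mem_filter, mem_image, hB, mem_univ, true_and, Prod.mk.injEq]
      constructor
      · rintro ⟨⟨t', ht', hx⟩, rfl⟩
        rw [ht, Option.some.injEq] at ht'
        subst ht'
        exact ⟨x, hx.symm, rfl, rfl⟩
      · rintro ⟨x', hx', rfl, rfl⟩
        exact ⟨⟨t, ht, hx'.symm⟩, rfl⟩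
    rw [h4, card_image_of_injective _ (fun a b hab => (Prod.mk.inj hab).2), h1]
  · rintro ⟨h, x⟩ ⟨h', x'⟩ hne
    rw [card_filter_prod']
    by_cases hh : h = h'
    · subst hh
      have hxx : x ≠ x' := fun hx => hne (by rw [hx])
      let F : Option Λ → ℕ := fun o => (univ.filter (fun y =>
        (∃ t, o = some t ∧ π t x = π t y) ∧ ∃ t, o = some t ∧ π t x' = π t y)).card
      have h5 : ∀ g, (univ.filter (fun y => (h, x) ∈ B (g, y) ∧ (h, x') ∈ B (g, y))).card =
          F (φ (g - h)) := by
        intro g
        exact congrArg card (filter_congr (fun y _ => by rw [hB, hB]))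
      rw [sum_congr rfl (fun g _ => h5 g)]
      have h6 : ∑ g, F (φ (g - h)) = ∑ o, F o :=
        Fintype.sum_equiv ((Equiv.subRight h).trans φ) _ _ (fun g => rfl)
      rw [h6, Fintype.sum_option]
      have h7 : F none = 0 := by
        simp [F]
      have h8 : ∀ t, F (some t) = if π t x = π t x' then s else 0 := by
        intro t
        by_cases ht : π t x = π t x'
        · rw [if_pos ht, ← h1 t x]
          refine congrArg card (filter_congr (fun y _ => ?_))
          simp only [Option.some.injEq, exists_eq_left']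
          rw [← ht, and_self]
        · rw [if_neg ht, card_eq_zero, filter_eq_empty_iff]
          rintro y - ⟨⟨t1, ht1, h9⟩, t2, ht2, h10⟩
          rw [Option.some.injEq] at ht1 ht2
          subst ht1
          subst ht2
          exact ht (h9.trans h10.symm)
      rw [h7, zero_add, sum_congr rfl (fun t _ => h8 t), ← sum_filter, sum_const, h3 x x' hxx,
        smul_eq_mul, heq, mul_comm]
    · have h5 : ∀ g, (univ.filter (fun y => (h, x) ∈ B (g, y) ∧ (h', x') ∈ B (g, y))).card =
          if g ∈ ({h, h'} : Finset (Fin (r + 1))) then 0 else μ := by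
        intro g
        by_cases hg : g ∈ ({h, h'} : Finset (Fin (r + 1)))
        · rw [if_pos hg, card_eq_zero, filter_eq_empty_iff]
          rintro y - ⟨h9, h10⟩
          rw [hB] at h9 h10
          obtain ⟨t1, ht1, -⟩ := h9
          obtain ⟨t2, ht2, -⟩ := h10
          rw [mem_insert, mem_singleton] at hg
          rcases hg with rfl | rfl
          · rw [sub_self, hφ0] at ht1
            exact absurd ht1 (by simp)
          · rw [sub_self, hφ0] at ht2
            exact absurd ht2 (by simp)
        · rw [if_neg hg]
          rw [mem_insert, mem_singleton, not_or] at hg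
          obtain ⟨t1, ht1⟩ := hφs (g - h) (sub_ne_zero.2 hg.1)
          obtain ⟨t2, ht2⟩ := hφs (g - h') (sub_ne_zero.2 hg.2)
          have ht : t1 ≠ t2 := by
            intro ht
            rw [← ht, ← ht1] at ht2
            exact hh (sub_right_injective (φ.injective ht2)).symm
          rw [← h2 t1 t2 ht x x']
          refine congrArg card (filter_congr (fun y _ => ?_))
          rw [hB, hB, ht1, ht2]
          simp only [Option.some.injEq, exists_eq_left']
      rw [sum_congr rfl (fun g _ => h5 g), sum_ite, sum_const_zero, zero_add, sum_const,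
        smul_eq_mul, filter_not, card_sdiff_of_subset (filter_subset _ _), card_univ,
        Fintype.card_fin]
      have h6 : (univ.filter (fun g => g ∈ ({h, h'} : Finset (Fin (r + 1))))).card = 2 := by
        rw [filter_mem_eq_inter, univ_inter, card_pair hh]
      rw [h6]
      congr 1

end Pool.Agent.Helper63.UC
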