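import Pool.Agent.Helper63.UC.Defs
import Pool.Agent.Helper63.UC.Net

/-!
# Coloured symmetric designs from two cores of conference matrices

`Q` is the core (order `c`) of a conference matrix of order `c + 1`, `W` the core (order `c + 2`) of a
conference matrix of order `c + 3`, one of them symmetric and the other one skew. The blocks
`W i j * Q + I` (`i ≠ j`), `-J` (`i = j`) form the core of a Hadamard matrix of order `(c + 1)^2`.
-/

set_option autoImplicit false

namespace Pool.Agent.Helper63.UC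

open Finset

/-- `Q` is a core: zero diagonal, `±1` elsewhere, row sums `0`, `Q Qᵀ = n I - J`, `Qᵀ = ε Q`. -/
structure Core {X : Type} [Fintype X] [DecidableEq X] (n : ℤ) (ε : ℤ) (Q : X → X → ℤ) : Prop where
  diag : ∀ x, Q x x = 0
  off : ∀ x y, x ≠ y → Q x y = 1 ∨ Q x y = -1
  row : ∀ x, ∑ z, Q x z = 0
  gram : ∀ x y, ∑ z, Q x z * Q y z = if x = y then n - 1 else -1
  symm : ∀ x y, Q y x = ε * Q x y

section

variable {X Y : Type} [Fintype X] [DecidableEq X] [Fintype Y] [DecidableEq Y]

theorem Core.col {n ε : ℤ} {Q : X → X → ℤ} (h : Core n ε Q) (y : X) : ∑ x, Q x y = 0 := by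
  rw [sum_congr rfl (fun x _ => h.symm y x), ← mul_sum, h.row, mul_zero]

theorem Core.gram' {n ε : ℤ} (hε : ε * ε = 1) {Q : X → X → ℤ} (h : Core n ε Q) (y y' : X) :
    ∑ x, Q x y * Q x y' = if y = y' then n - 1 else -1 := by
  rw [← h.gram y y']
  refine sum_congr rfl (fun x _ => ?_)
  rw [h.symm y x, h.symm y' x]
  linear_combination (Q y x * Q y' x) * hε

/-- The core of the large matrix. -/
def hm (Q : X → X → ℤ) (W : Y → Y → ℤ) (b p : Y × X) : ℤ :=
  if b.1 = p.1 then -1 else W b.1 p.1 * Q b.2 p.2 + if b.2 = p.2 then 1 else 0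

theorem hm_pm {n n' ε ε' : ℤ} {Q : X → X → ℤ} {W : Y → Y → ℤ} (hQ : Core n ε Q)
    (hW : Core n' ε' W) (b p : Y × X) : hm Q W b p = 1 ∨ hm Q W b p = -1 := by
  unfold hm
  by_cases h1 : b.1 = p.1
  · rw [if_pos h1]; exact Or.inr rfl
  · rw [if_neg h1]
    by_cases h2 : b.2 = p.2
    · rw [if_pos h2, h2, hQ.diag]; left; ring
    · rw [if_neg h2]
      rcases hW.off _ _ h1 with h3 | h3 <;> rcases hQ.off _ _ h2 with h4 | h4 <;>
        rw [h3, h4] <;> norm_num

/-- Row and column sums of the blocks. -/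
theorem hm_rowblock {n n' ε ε' : ℤ} {Q : X → X → ℤ} {W : Y → Y → ℤ} (hQ : Core n ε Q)
    (_hW : Core n' ε' W) {i j : Y} (hij : i ≠ j) (x : X) : ∑ y, hm Q W (i, x) (j, y) = 1 := by
  unfold hm
  simp only [if_neg hij]
  rw [sum_add_distrib, ← mul_sum, hQ.row, mul_zero, zero_add, sum_ite_eq]
  simp

theorem hm_colblock {n n' ε ε' : ℤ} {Q : X → X → ℤ} {W : Y → Y → ℤ} (hQ : Core n ε Q)
    (_hW : Core n' ε' W) {i j : Y} (hij : i ≠ j) (y : X) : ∑ x, hm Q W (i, x) (j, y) = 1 := by
  unfold hm
  simp only [if_neg hij]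
  rw [sum_add_distrib, ← mul_sum, hQ.col, mul_zero, zero_add, sum_ite_eq']
  simp

theorem hm_col {c : ℕ} {ε ε' : ℤ} {Q : X → X → ℤ} {W : Y → Y → ℤ}
    (hQ : Core (c : ℤ) ε Q) (hW : Core ((c : ℤ) + 2) ε' W) (hX : Fintype.card X = c)
    (hY : Fintype.card Y = c + 2) (p : Y × X) : ∑ b, hm Q W b p = 1 := by
  obtain ⟨j, y⟩ := p
  rw [Fintype.sum_prod_type, ← add_sum_erase _ _ (mem_univ j),
    sum_congr rfl (fun i hi => hm_colblock hQ hW (ne_of_mem_erase hi) y), sum_const,
    card_erase_of_mem (mem_univ j), card_univ, hY]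
  have h1 : ∑ x, hm Q W (j, x) (j, y) = -(c : ℤ) := by
    unfold hm
    simp only [if_true]
    rw [sum_const, card_univ, hX]
    simp
  rw [h1]
  simp only [Nat.add_sub_cancel, nsmul_eq_mul, mul_one]
  push_cast [show c + 2 - 1 = c + 1 by omega]
  ring

theorem hm_gram {c : ℕ} {ε : ℤ} (hε : ε * ε = 1) {Q : X → X → ℤ} {W : Y → Y → ℤ}
    (hQ : Core (c : ℤ) ε Q) (hW : Core ((c : ℤ) + 2) (-ε) W) (hX : Fintype.card X = c)
    (hY : Fintype.card Y = c + 2) (p p' : Y × X) (hpp : p ≠ p') :
    ∑ b, hm Q W b p * hm Q W b p' = -1 := by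
  obtain ⟨j, y⟩ := p
  obtain ⟨j', y'⟩ := p'
  have hε' : (-ε) * (-ε) = 1 := by linear_combination hε
  rw [Fintype.sum_prod_type]
  -- the generic block
  have hgen : ∀ i, i ≠ j → i ≠ j' → ∑ x, hm Q W (i, x) (j, y) * hm Q W (i, x) (j', y') =
      W i j * W i j' * (if y = y' then (c : ℤ) - 1 else -1) + W i j * Q y' y + W i j' * Q y y' +
        (if y = y' then 1 else 0) := by
    intro i h1 h2
    have h3 : ∀ x, hm Q W (i, x) (j, y) * hm Q W (i, x) (j', y') =
        W i j * W i j' * (Q x y * Q x y') + W i j * (if x = y' then Q x y else 0) +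
          W i j' * (if x = y then Q x y' else 0) + (if x = y then (if y = y' then 1 else 0) else 0) := by
      intro x
      unfold hm
      simp only [if_neg h1, if_neg h2]
      by_cases h4 : x = y
      · subst h4
        by_cases h5 : x = y'
        · subst h5; simp [hQ.diag]
        · simp [h5, hQ.diag]
      · by_cases h5 : x = y'
        · subst h5
          simp [h4, hQ.diag]
        · simp only [if_neg h4, if_neg h5]
          ring
    rw [sum_congr rfl (fun x _ => h3 x), sum_add_distrib, sum_add_distrib, sum_add_distrib,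
      ← mul_sum, hQ.gram' hε, ← mul_sum, ← mul_sum, sum_ite_eq', sum_ite_eq', sum_ite_eq']
    simp
  by_cases hjj : j = j'
  · subst hjj
    have hyy : y ≠ y' := fun h => hpp (by rw [h])
    rw [← add_sum_erase _ _ (mem_univ j)]
    have h1 : ∑ x, hm Q W (j, x) (j, y) * hm Q W (j, x) (j, y') = (c : ℤ) := by
      unfold hm
      simp only [if_true]
      rw [sum_const, card_univ, hX]
      simp
    have h2 : ∀ i ∈ univ.erase j, ∑ x, hm Q W (i, x) (j, y) * hm Q W (i, x) (j, y') =
        -1 + W i j * (Q y' y + Q y y') := by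
      intro i hi
      have h3 := ne_of_mem_erase hi
      rw [hgen i h3 h3, if_neg hyy, if_neg hyy]
      rcases hW.off _ _ h3 with h4 | h4 <;> rw [h4] <;> ring
    have h5 : ∑ i ∈ univ.erase j, W i j = 0 := by
      have h6 := add_sum_erase univ (fun i => W i j) (mem_univ j)
      rw [hW.col, hW.diag, zero_add] at h6
      exact h6
    rw [h1, sum_congr rfl h2, sum_add_distrib, ← sum_mul, h5, zero_mul, add_zero, sum_const,
      card_erase_of_mem (mem_univ j), card_univ, hY]
    simp only [nsmul_eq_mul]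
    push_cast [show c + 2 - 1 = c + 1 by omega]
    ring
  · have hj' : j' ∈ univ.erase j := mem_erase.2 ⟨Ne.symm hjj, mem_univ _⟩
    rw [← add_sum_erase _ _ (mem_univ j), ← add_sum_erase _ _ hj']
    have h1 : ∑ x, hm Q W (j, x) (j, y) * hm Q W (j, x) (j', y') = -1 := by
      have h2 := hm_colblock hQ hW hjj y'
      have h3 : ∀ x, hm Q W (j, x) (j, y) = -1 := fun x => by unfold hm; simp
      rw [sum_congr rfl (fun x _ => by rw [h3 x]), ← mul_sum, h2]
      ring
    have h1' : ∑ x, hm Q W (j', x) (j, y) * hm Q W (j', x) (j', y') = -1 := by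
      have h2 := hm_colblock hQ hW (Ne.symm hjj) y
      have h3 : ∀ x, hm Q W (j', x) (j', y') = -1 := fun x => by unfold hm; simp
      rw [sum_congr rfl (fun x _ => by rw [h3 x]), ← sum_mul, h2]
      ring
    have h4 : ∀ i ∈ (univ.erase j).erase j',
        ∑ x, hm Q W (i, x) (j, y) * hm Q W (i, x) (j', y') =
        W i j * W i j' * (if y = y' then (c : ℤ) - 1 else -1) + W i j * Q y' y + W i j' * Q y y' +
          (if y = y' then 1 else 0) := fun i hi =>
      hgen i (ne_of_mem_erase (mem_of_mem_erase hi)) (ne_of_mem_erase hi)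
    have h5 : ∑ i ∈ (univ.erase j).erase j', W i j * W i j' = -1 := by
      have h6 := add_sum_erase univ (fun i => W i j * W i j') (mem_univ j)
      have h7 := add_sum_erase (univ.erase j) (fun i => W i j * W i j') hj'
      have h8 := hW.gram' hε' j j'
      rw [if_neg hjj] at h8
      rw [h8, hW.diag, zero_mul, zero_add] at h6
      rw [hW.diag j', mul_zero, zero_add] at h7
      rw [h7, h6]
    have h9 : ∑ i ∈ (univ.erase j).erase j', W i j = - W j' j := by
      have h6 := add_sum_erase univ (fun i => W i j) (mem_univ j)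
      have h7 := add_sum_erase (univ.erase j) (fun i => W i j) hj'
      rw [hW.col, hW.diag, zero_add] at h6
      linarith
    have h10 : ∑ i ∈ (univ.erase j).erase j', W i j' = - W j j' := by
      have h6 := add_sum_erase univ (fun i => W i j') (mem_univ j)
      have h7 := add_sum_erase (univ.erase j) (fun i => W i j') hj'
      rw [hW.col] at h6
      rw [hW.diag j', zero_add] at h7
      linarith
    have h11 : ((univ.erase j).erase j').card = c := by
      rw [card_erase_of_mem hj', card_erase_of_mem (mem_univ j), card_univ, hY]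
      omega
    rw [h1, h1', sum_congr rfl h4, sum_add_distrib, sum_add_distrib, sum_add_distrib, ← sum_mul,
      ← sum_mul, ← sum_mul, h5, h9, h10, sum_const, h11, hW.symm j j', hQ.symm y y']
    by_cases hyy : y = y'
    · subst hyy
      rw [hQ.diag]
      simp
    · rw [if_neg hyy, if_neg hyy]
      simp only [smul_zero]
      linear_combination (W j j' * Q y y') * hε

/-- Coloured designs from a symmetric and a skew core of orders `c` and `c + 2`. -/
theorem coloured_conf {c t : ℕ} (hc : c + 1 = 2 * t) (ht : 2 ≤ t) {ε : ℤ} (hε : ε * ε = 1)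
    {Q : X → X → ℤ} {W : Y → Y → ℤ} (hQ : Core (c : ℤ) ε Q) (hW : Core ((c : ℤ) + 2) (-ε) W)
    (hX : Fintype.card X = c) (hY : Fintype.card Y = c + 2) :
    Coloured ((2 * t) ^ 2 - 1) (2 * t ^ 2) (2 * t + 1) := by
  classical
  let B : Y × X → Finset (Y × X) := fun b => univ.filter (fun p => hm Q W b p = 1)
  have hv : (2 * t) ^ 2 - 1 = (c + 2) * c := by
    rw [← hc]
    have : (c + 1) ^ 2 = (c + 2) * c + 1 := by ring
    omega
  have hX0 : Nonempty X := Fintype.card_pos_iff.1 (by omega)
  have hmain := coloured_of (V := Y × X) (β := Y × X) (C := Y) ((2 * t) ^ 2 - 1) (2 * t + 1) t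
    (t ^ 2) B Prod.fst Prod.fst (by omega) (by omega) (by rw [Nat.add_sub_cancel]; nlinarith)
    (by
      rw [Nat.add_sub_cancel]
      have : 2 * t * t + 1 < (2 * t) ^ 2 := by nlinarith
      omega) (by rw [hY]; omega)
    (by rw [Fintype.card_prod, hX, hY, hv]) (by rw [Fintype.card_prod, hX, hY, hv])
    Prod.fst_surjective ?_ ?_ (by positivity) ?_
  · rw [Nat.add_sub_cancel] at hmain
    have h1 : 2 * t * t = 2 * t ^ 2 := by ring
    rw [h1] at hmain
    exact hmain
  · rintro ⟨i, x⟩ ⟨j, y⟩ hp (he : j = i)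
    subst he
    have h1 : hm Q W (j, x) (j, y) = 1 := (mem_filter.1 hp).2
    unfold hm at h1
    simp at h1
  · rintro ⟨i, x⟩ j (hj : j ≠ i)
    have h1 : (B (i, x)).filter (fun p => p.1 = j) =
        (univ.filter (fun y => hm Q W (i, x) (j, y) = 1)).image (fun y => (j, y)) := by
      ext ⟨j', y⟩
      simp only [B, mem_filter, mem_univ, true_and, mem_image, Prod.mk.injEq]
      constructor
      · rintro ⟨h, rfl⟩
        exact ⟨y, h, rfl, rfl⟩
      · rintro ⟨y', h, rfl, rfl⟩
        exact ⟨h, rfl⟩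
    rw [h1, card_image_of_injective _ (fun a b hab => (Prod.mk.inj hab).2)]
    -- count the entries equal to one
    have h2 : ∀ y, hm Q W (i, x) (j, y) = 2 * (if hm Q W (i, x) (j, y) = 1 then 1 else 0) - 1 := by
      intro y
      rcases hm_pm hQ hW (i, x) (j, y) with h | h <;> rw [h] <;> norm_num
    have h3 := hm_rowblock hQ hW (Ne.symm hj) x
    rw [sum_congr rfl (fun y _ => h2 y), sum_sub_distrib, ← mul_sum, sum_boole, sum_const,
      card_univ, hX] at h3
    simp only [nsmul_eq_mul, mul_one] at h3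
    have h4 : ((univ.filter (fun y => hm Q W (i, x) (j, y) = 1)).card : ℤ) = t := by
      have h5 : (c : ℤ) + 1 = 2 * t := by exact_mod_cast hc
      linarith
    exact_mod_cast h4
  · intro p p' hpp
    have h1 : ∀ b : Y × X, (4 : ℤ) * (if p ∈ B b ∧ p' ∈ B b then 1 else 0) =
        (1 + hm Q W b p) * (1 + hm Q W b p') := by
      intro b
      simp only [B, mem_filter, mem_univ, true_and]
      rcases hm_pm hQ hW b p with h | h <;> rcases hm_pm hQ hW b p' with h' | h' <;>
        rw [h, h'] <;> norm_num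
    have h2 : (4 : ℤ) * ((univ.filter (fun b : Y × X => p ∈ B b ∧ p' ∈ B b)).card : ℤ) =
        4 * (t : ℤ) ^ 2 := by
      rw [← sum_boole, mul_sum, sum_congr rfl (fun b _ => h1 b)]
      have h3 : ∀ b, (1 + hm Q W b p) * (1 + hm Q W b p') =
          1 + hm Q W b p + hm Q W b p' + hm Q W b p * hm Q W b p' := fun b => by ring
      rw [sum_congr rfl (fun b _ => h3 b), sum_add_distrib, sum_add_distrib, sum_add_distrib,
        hm_col hQ hW hX hY, hm_col hQ hW hX hY, hm_gram hε hQ hW hX hY p p' hpp, sum_const,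
        card_univ, Fintype.card_prod, hX, hY]
      have h5 : (c : ℤ) + 1 = 2 * t := by exact_mod_cast hc
      simp only [nsmul_eq_mul, mul_one]
      push_cast
      have h6 : (t : ℤ) = ((c : ℤ) + 1) / 2 := by omega
      have h7 : (c : ℤ) = 2 * t - 1 := by linarith
      rw [h7]
      ring
    have h8 : ((univ.filter (fun b : Y × X => p ∈ B b ∧ p' ∈ B b)).card : ℤ) = (t : ℤ) ^ 2 := by
      linarith
    exact_mod_cast h8

end

end Pool.Agent.Helper63.UC
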