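import Pool.Agent.Helper63.UC.Lift
import Pool.Agent.Helper63.UC.Lin

/-!
# The cyclic group and the character used for the lifting
-/

set_option autoImplicit false

namespace Pool.Agent.Helper63.UC

open Finset

/-- A logarithm modulo a divisor `g` of `|F| - 1`. -/
theorem exists_log {F : Type} [Field F] [Fintype F] [DecidableEq F] (g κ : ℕ) [NeZero g]
    (h : Fintype.card F - 1 = g * κ) :
    ∃ χ : F → ZMod g, (∀ z w, z ≠ 0 → w ≠ 0 → χ (z / w) = χ z - χ w) ∧
      ∀ d, (univ.filter (fun z => z ≠ 0 ∧ χ z = d)).card = κ := by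
  classical
  have hN : Nat.card Fˣ = g * κ := by
    rw [Nat.card_eq_fintype_card, Fintype.card_units, h]
  have hN0 : 0 < Nat.card Fˣ := Nat.card_pos
  have : NeZero (Nat.card Fˣ) := ⟨hN0.ne'⟩
  let e : Multiplicative (ZMod (Nat.card Fˣ)) ≃* Fˣ := zmodCyclicMulEquiv inferInstance
  have hdvd : g ∣ Nat.card Fˣ := Dvd.intro _ hN.symm
  let c : ZMod (Nat.card Fˣ) →+* ZMod g := ZMod.castHom hdvd _
  let χ : F → ZMod g := fun z => if hz : z = 0 then 0 else
    c (Multiplicative.toAdd (e.symm (Units.mk0 z hz)))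
  have hχ : ∀ (z : F) (hz : z ≠ 0), χ z = c (Multiplicative.toAdd (e.symm (Units.mk0 z hz))) :=
    fun z hz => dif_neg hz
  refine ⟨χ, fun z w hz hw => ?_, fun d => ?_⟩
  · rw [hχ z hz, hχ w hw, hχ _ (div_ne_zero hz hw), ← map_sub, ← toAdd_div, ← map_div]
    congr 3
    ext
    simp
  · have h1 := card_fiber c.toAddMonoidHom (ZMod.castHom_surjective hdvd) d
    rw [ZMod.card, ZMod.card] at h1
    have hg : 0 < g := Nat.pos_of_ne_zero (NeZero.ne g)
    have h2 := Nat.eq_of_mul_eq_mul_right hg (h1.trans (hN.trans (mul_comm g κ)))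
    rw [← h2]
    refine card_bij' (fun z _ => if hz : z = 0 then 0 else
        Multiplicative.toAdd (e.symm (Units.mk0 z hz)))
      (fun a _ => ((e (Multiplicative.ofAdd a) : Fˣ) : F)) ?_ ?_ ?_ ?_
    · intro z hz
      rw [mem_filter] at hz ⊢
      refine ⟨mem_univ _, ?_⟩
      rw [dif_neg hz.2.1]
      rw [hχ z hz.2.1] at hz
      exact hz.2.2
    · intro a ha
      rw [mem_filter] at ha ⊢
      refine ⟨mem_univ _, Units.ne_zero _, ?_⟩
      rw [hχ _ (Units.ne_zero _), Units.mk0_val, MulEquiv.symm_apply_apply, toAdd_ofAdd]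
      exact ha.2
    · intro z hz
      rw [mem_filter] at hz
      simp only [dif_neg hz.2.1]
      rw [ofAdd_toAdd, MulEquiv.apply_symm_apply, Units.val_mk0]
    · intro a ha
      simp only [Units.ne_zero, dite_false]
      rw [Units.mk0_val, MulEquiv.symm_apply_apply, toAdd_ofAdd]

/-- Residues modulo `n` and quotients modulo `q` of the elements of the cyclic group of order
`q * n`. -/
theorem exists_split (n q : ℕ) [NeZero n] [NeZero q] :
    ∃ (Ψ : ZMod (q * n) ≃ ZMod n × ZMod q) (e : ZMod (q * n)),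
      ∀ u, Ψ (u + e) = ((Ψ u).1, (Ψ u).2 + 1) := by
  have hn : 0 < n := Nat.pos_of_ne_zero (NeZero.ne n)
  have hq : 0 < q := Nat.pos_of_ne_zero (NeZero.ne q)
  have : NeZero (q * n) := ⟨(Nat.mul_pos hq hn).ne'⟩
  let f : ZMod (q * n) → ZMod n × ZMod q := fun u => ((u.val : ZMod n), ((u.val / n : ℕ) : ZMod q))
  have hf : Function.Injective f := by
    intro u u' h
    have h1 : ((u.val : ℕ) : ZMod n) = ((u'.val : ℕ) : ZMod n) := (Prod.mk.inj h).1
    have h2 : ((u.val / n : ℕ) : ZMod q) = ((u'.val / n : ℕ) : ZMod q) := (Prod.mk.inj h).2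
    rw [ZMod.natCast_eq_natCast_iff'] at h1 h2
    have h3 : u.val / n < q := (Nat.div_lt_iff_lt_mul hn).2 (ZMod.val_lt u)
    have h4 : u'.val / n < q := (Nat.div_lt_iff_lt_mul hn).2 (ZMod.val_lt u')
    rw [Nat.mod_eq_of_lt h3, Nat.mod_eq_of_lt h4] at h2
    apply ZMod.val_injective
    rw [← Nat.div_add_mod u.val n, ← Nat.div_add_mod u'.val n, h1, h2]
  have hcard : Fintype.card (ZMod (q * n)) = Fintype.card (ZMod n × ZMod q) := by
    rw [Fintype.card_prod, ZMod.card, ZMod.card, ZMod.card, mul_comm]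
  refine ⟨Equiv.ofBijective f ((Fintype.bijective_iff_injective_and_card f).2 ⟨hf, hcard⟩),
    (n : ZMod (q * n)), fun u => ?_⟩
  simp only [Equiv.ofBijective_apply]
  have hval : (u + (n : ZMod (q * n))).val = (u.val + n) % (q * n) := by
    rw [ZMod.val_add, ZMod.val_natCast, Nat.add_mod_mod]
  have hlt := ZMod.val_lt u
  refine Prod.ext ?_ ?_
  · show (((u + (n : ZMod (q * n))).val : ℕ) : ZMod n) = ((u.val : ℕ) : ZMod n)
    rw [hval, ZMod.natCast_eq_natCast_iff', Nat.mod_mod_of_dvd _ (Dvd.intro_left q rfl),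
      Nat.add_mod_right]
  · show ((((u + (n : ZMod (q * n))).val / n : ℕ)) : ZMod q) = ((u.val / n : ℕ) : ZMod q) + 1
    rw [hval]
    by_cases h : u.val + n < q * n
    · rw [Nat.mod_eq_of_lt h, Nat.add_div_right _ hn]
      push_cast
      rfl
    · have h1 : (u.val + n) % (q * n) = u.val + n - q * n := by
        rw [Nat.mod_eq_sub_mod (by omega), Nat.mod_eq_of_lt]
        have : n ≤ q * n := Nat.le_mul_of_pos_left n hq
        omega
      rw [h1]
      have h2 : u.val / n = q - 1 := by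
        apply Nat.div_eq_of_lt_le
        · rw [Nat.sub_mul, one_mul]; omega
        · rw [Nat.sub_add_cancel hq]; exact hlt
      have h3 : (u.val + n - q * n) / n = 0 := by
        apply Nat.div_eq_of_lt
        omega
      rw [h2, h3]
      have h4 : ((q - 1 : ℕ) : ZMod q) + 1 = ((q - 1 + 1 : ℕ) : ZMod q) := by push_cast; rfl
      rw [h4, Nat.sub_add_cancel hq, ZMod.natCast_self]
      simp

/-- Sums of periodic functions. -/
theorem sum_split {n q : ℕ} [NeZero n] [NeZero q] [Fintype (ZMod (q * n))]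
    {U : Type} [AddCommGroup U] [Fintype U] [DecidableEq U]
    (Ψ : U ≃ ZMod n × ZMod q) (e : U) (he : ∀ u, Ψ (u + e) = ((Ψ u).1, (Ψ u).2 + 1))
    (H : U → ℕ) (hH : ∀ u, H (u + e) = H u) :
    ∑ u, H u = q * ∑ i ∈ univ.filter (fun u => (Ψ u).2 = 0), H i := by
  classical
  have h1 : ∀ (k : ℕ) (u : U), H (u + k • e) = H u ∧ Ψ (u + k • e) = ((Ψ u).1, (Ψ u).2 + k) := by
    intro k
    induction k with
    | zero => intro u; simp
    | succ k ih =>
      intro u
      have h2 : u + (k + 1) • e = (u + k • e) + e := by rw [add_smul, one_smul, add_assoc]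
      rw [h2, hH, he, (ih u).1, (ih u).2]
      refine ⟨rfl, ?_⟩
      push_cast
      rw [add_assoc]
  have h3 : ∀ a (j : ZMod q), H (Ψ.symm (a, j)) = H (Ψ.symm (a, 0)) := by
    intro a j
    have h4 := (h1 j.val (Ψ.symm (a, 0))).2
    rw [Equiv.apply_symm_apply, ZMod.natCast_zmod_val, zero_add] at h4
    have h5 := (h1 j.val (Ψ.symm (a, 0))).1
    rw [← h5, ← h4, Equiv.symm_apply_apply]
  have h6 : ∑ u, H u = ∑ p : ZMod n × ZMod q, H (Ψ.symm p) :=
    Fintype.sum_equiv Ψ _ _ (fun u => by rw [Equiv.symm_apply_apply])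
  have h7 : ∑ i ∈ univ.filter (fun u => (Ψ u).2 = 0), H i = ∑ a : ZMod n, H (Ψ.symm (a, 0)) := by
    refine sum_bij' (fun u _ => (Ψ u).1) (fun a _ => Ψ.symm (a, 0)) (fun _ _ => mem_univ _) ?_ ?_ ?_ ?_
    · intro a _
      rw [mem_filter]
      exact ⟨mem_univ _, by rw [Equiv.apply_symm_apply]⟩
    · intro u hu
      rw [Equiv.symm_apply_eq]
      exact Prod.ext rfl (mem_filter.1 hu).2.symm
    · intro a _
      rw [Equiv.apply_symm_apply]
    · intro u hu
      congr 1
      rw [Equiv.eq_symm_apply]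
      exact Prod.ext rfl (mem_filter.1 hu).2
  rw [h6, h7, Fintype.sum_prod_type, mul_sum]
  refine sum_congr rfl (fun a _ => ?_)
  rw [sum_congr rfl (fun j _ => h3 a j), sum_const, card_univ, ZMod.card, smul_eq_mul]

end Pool.Agent.Helper63.UC
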