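import Mathlib

/-!
# `0`-ULSE coloured symmetric designs: definitions and the general counting lemma
-/

set_option autoImplicit false

namespace Pool.Agent.Helper63.UC

open Finset

/-- The family `B` of subsets of the point set `V` (indexed by `β`, so repeated blocks are allowed)
is a symmetric BIBD with `v` points and block size `k`: there are `v` points and `v` blocks, each
block has `k` points, `2 ≤ k < v`, and for some `lam > 0` any two distinct points lie in exactly
`lam` blocks. -/
def IsSymmetricBIBD {V β : Type} [Fintype V] [DecidableEq V] [Fintype β] (v k : ℕ)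
    (B : β → Finset V) : Prop :=
  2 ≤ k ∧ k < v ∧ Fintype.card V = v ∧ Fintype.card β = v ∧ (∀ b, (B b).card = k) ∧
    ∃ lam : ℕ, 0 < lam ∧ ∀ x y : V, x ≠ y →
      (Finset.univ.filter (fun b : β => x ∈ B b ∧ y ∈ B b)).card = lam

/-- `f` is a `0`-ULSE `l`-colouring of the design `B` with block size `k`: `f` is onto the set
of `l` colours, `l - 1` divides `k`, and for every block exactly one colour does not occur in it,
while every other colour occurs exactly `k / (l - 1)` times. -/
def IsZeroULSE {V β : Type} [DecidableEq V] (k l : ℕ) (B : β → Finset V) (f : V → Fin l) : Prop :=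
  Function.Surjective f ∧ (l - 1) ∣ k ∧
    ∀ b : β, ∃! c : Fin l, ((B b).filter (fun x => f x = c)).card = 0 ∧
      ∀ c' : Fin l, c' ≠ c → ((B b).filter (fun x => f x = c')).card = k / (l - 1)

/-- There is a symmetric BIBD with `v` points and block size `k` which has a `0`-ULSE
`l`-colouring. -/
def Coloured (v k l : ℕ) : Prop :=
  ∃ (V β : Type) (_ : Fintype V) (_ : DecidableEq V) (_ : Fintype β) (B : β → Finset V)
    (f : V → Fin l), IsSymmetricBIBD v k B ∧ IsZeroULSE k l B f

theorem coloured_of {V β C : Type} [Fintype V] [DecidableEq V] [Fintype β] [Fintype C]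
    [DecidableEq C] (v l s lam : ℕ) (B : β → Finset V) (f : V → C) (miss : β → C)
    (hs : 1 ≤ s) (hl : 2 ≤ l) (hk2 : 2 ≤ (l - 1) * s) (hkv : (l - 1) * s < v)
    (hC : Fintype.card C = l) (hV : Fintype.card V = v) (hβ : Fintype.card β = v)
    (hsurj : Function.Surjective f) (hmiss : ∀ b, ∀ x ∈ B b, f x ≠ miss b)
    (hocc : ∀ b c, c ≠ miss b → ((B b).filter (fun x => f x = c)).card = s) (hlam : 0 < lam)
    (hpair : ∀ x y : V, x ≠ y →
      (Finset.univ.filter (fun b : β => x ∈ B b ∧ y ∈ B b)).card = lam) :
    Coloured v ((l - 1) * s) l := by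
  classical
  let e : C ≃ Fin l := Fintype.equivFinOfCardEq hC
  have hl1 : 0 < l - 1 := by omega
  have h0 : ∀ b, ((B b).filter (fun x => f x = miss b)).card = 0 := by
    intro b
    rw [card_eq_zero, filter_eq_empty_iff]
    intro x hx
    exact hmiss b x hx
  have hcard : ∀ b, (B b).card = (l - 1) * s := by
    intro b
    rw [card_eq_sum_card_fiberwise (f := f) (t := univ) (fun x _ => mem_coe.2 (mem_univ _)),
      ← add_sum_erase _ _ (mem_univ (miss b)), h0, zero_add,
      sum_congr rfl (g := fun _ => s) (fun c hc => hocc b c (ne_of_mem_erase hc)), sum_const,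
      card_erase_of_mem (mem_univ _), card_univ, hC, smul_eq_mul]
  have hfil : ∀ b (c : Fin l), (B b).filter (fun x => e (f x) = c) =
      (B b).filter (fun x => f x = e.symm c) := by
    intro b c
    apply filter_congr
    intro x _
    rw [← Equiv.eq_symm_apply]
  refine ⟨V, β, inferInstance, inferInstance, inferInstance, B, fun x => e (f x),
    ⟨hk2, hkv, hV, hβ, hcard, lam, hlam, hpair⟩,
    e.surjective.comp hsurj, Dvd.intro _ rfl, fun b => ⟨e (miss b), ⟨?_, ?_⟩, ?_⟩⟩
  · rw [hfil, Equiv.symm_apply_apply]; exact h0 b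
  · intro c hc
    rw [hfil, Nat.mul_div_cancel_left _ hl1]
    exact hocc b _ (fun h => hc (by rw [← h, Equiv.apply_symm_apply]))
  · rintro c ⟨hc, -⟩
    by_contra hne
    rw [hfil, hocc b _ (fun h => hne (by rw [← h, Equiv.apply_symm_apply]))] at hc
    omega

end Pool.Agent.Helper63.UC
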