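import Pool.Agent.Helper63.UC.Nec

/-!
# The structure of a coloured symmetric design; the dual colouring
-/

set_option autoImplicit false

namespace Pool.Agent.Helper63.UC

open Finset

/-- The structure of a coloured symmetric design with parameters `v = (m + 1) n`, `k = m s`,
`l = m + 1`. -/
theorem coloured_structure {V β : Type} [Fintype V] [DecidableEq V] [Fintype β] {v k l : ℕ}
    {B : β → Finset V} {f : V → Fin l} (hd : IsSymmetricBIBD v k B) (hu : IsZeroULSE k l B f) :
    ∃ (m s n lam : ℕ) (miss : β → Fin l), l = m + 1 ∧ k = m * s ∧ v = (m + 1) * n ∧ 0 < s ∧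
      s < m ∧ n * (m - s) = s * (m - 1) ∧ lam = s * (m - s) ∧
      (∀ x y : V, x ≠ y → (univ.filter (fun b : β => x ∈ B b ∧ y ∈ B b)).card = lam) ∧
      (∀ c, (univ.filter (fun y => f y = c)).card = n) ∧
      (∀ x : V, (univ.filter (fun b : β => x ∈ B b)).card = k) ∧
      (∀ b, ∀ x ∈ B b, f x ≠ miss b) ∧
      (∀ b c, c ≠ miss b → ((B b).filter (fun x => f x = c)).card = s) ∧
      (∀ x a, a ≠ f x → (univ.filter (fun b : β => x ∈ B b ∧ miss b = a)).card = s) ∧
      (∀ a, (univ.filter (fun b : β => miss b = a)).card = n) := by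
  classical
  obtain ⟨hk2, hkv, hv, hβ, hk, lam, hlam, hl⟩ := hd
  obtain ⟨hsurj, hdvd, hcol⟩ := hu
  obtain ⟨s, hs⟩ := hdvd
  have hβ0 : Nonempty β := Fintype.card_pos_iff.1 (by omega)
  obtain ⟨b0⟩ := hβ0
  obtain ⟨c0, -, -⟩ := hcol b0
  have hl1 : 0 < l := Fin.pos c0
  have hl2 : 0 < l - 1 := by
    rcases Nat.eq_zero_or_pos (l - 1) with h0 | h0
    · rw [h0, zero_mul] at hs; omega
    · exact h0
  have hks : k / (l - 1) = s := by rw [hs, Nat.mul_div_cancel_left _ hl2]
  have hs0 : 0 < s := by
    rcases Nat.eq_zero_or_pos s with h0 | h0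
    · rw [h0, mul_zero] at hs; omega
    · exact h0
  have hrep := replication hv hβ hk hk2 hkv hl
  choose miss hmiss using hcol
  have hmiss1 : ∀ b, ∀ x ∈ B b, f x ≠ miss b := by
    intro b x hx he
    have h1 := (hmiss b).1.1
    rw [card_eq_zero, filter_eq_empty_iff] at h1
    exact h1 hx he
  have hmiss2 : ∀ b c, c ≠ miss b → ((B b).filter (fun x => f x = c)).card = s := by
    intro b c hc
    rw [← hks]
    exact (hmiss b).1.2 c hc
  have hmiss3 : ∀ b c, ((B b).filter (fun x => f x = c)).card = if miss b = c then 0 else s := by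
    intro b c
    by_cases hc : miss b = c
    · rw [if_pos hc, card_eq_zero, filter_eq_empty_iff]
      intro x hx he
      exact hmiss1 b x hx (he.trans hc.symm)
    · rw [if_neg hc]
      exact hmiss2 b c (Ne.symm hc)
  -- the size of the colour classes
  have hcls : ∀ c : Fin l, ((univ.filter (fun y => f y = c)).card - 1) * lam = k * (s - 1) ∧
      1 ≤ (univ.filter (fun y => f y = c)).card := by
    intro c
    obtain ⟨x, rfl⟩ := hsurj c
    have hx : x ∈ univ.filter (fun y => f y = f x) := by simp
    refine ⟨?_, card_pos.2 ⟨x, hx⟩⟩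
    have h2 := double_count B x ((univ.filter (fun y => f y = f x)).erase x)
    rw [sum_congr rfl (fun y hy => hl x y (ne_of_mem_erase hy).symm), sum_const,
      card_erase_of_mem hx, smul_eq_mul] at h2
    rw [h2, sum_congr rfl (g := fun _ => s - 1), sum_const, hrep, smul_eq_mul]
    intro b hb
    have hxb := (mem_filter.1 hb).2
    have h3 : ((univ.filter (fun y => f y = f x)).erase x).filter (fun y => y ∈ B b) =
        ((B b).filter (fun y => f y = f x)).erase x := by
      ext y
      simp only [mem_filter, mem_erase, mem_univ, true_and]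
      tauto
    have h4 : x ∈ (B b).filter (fun y => f y = f x) := mem_filter.2 ⟨hxb, rfl⟩
    rw [h3, card_erase_of_mem h4, hmiss2 b _ (hmiss1 b x hxb)]
  obtain ⟨n, hn⟩ : ∃ n, n = (univ.filter (fun y => f y = c0)).card := ⟨_, rfl⟩
  have hcn : ∀ c : Fin l, (univ.filter (fun y => f y = c)).card = n := by
    intro c
    obtain ⟨h1, h2⟩ := hcls c
    obtain ⟨h3, h4⟩ := hcls c0
    rw [← hn] at h3 h4
    have h5 := Nat.eq_of_mul_eq_mul_right hlam (h1.trans h3.symm)
    omega
  have hvn : v = l * n := by
    have h1 := card_eq_sum_card_fiberwise (s := (univ : Finset V)) (f := f) (t := univ)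
      (fun x _ => mem_coe.2 (mem_univ _))
    rw [card_univ, hv, sum_congr rfl (fun c _ => hcn c), sum_const, card_univ, Fintype.card_fin,
      smul_eq_mul] at h1
    exact h1
  have hn1 : 1 ≤ n := by
    have := (hcls c0).2
    rw [hcn] at this
    exact this
  have e1 : (n - 1) * lam = k * (s - 1) := by
    have := (hcls c0).1
    rw [hcn] at this
    exact this
  have e2 : (v - 1) * lam = k * (k - 1) := by
    have hV0 : Nonempty V := Fintype.card_pos_iff.1 (by omega)
    obtain ⟨x⟩ := hV0
    have h2 := double_count B x (univ.erase x)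
    rw [sum_congr rfl (fun y hy => hl x y (ne_of_mem_erase hy).symm), sum_const,
      card_erase_of_mem (mem_univ x), card_univ, hv, smul_eq_mul] at h2
    rw [h2, sum_congr rfl (g := fun _ => k - 1), sum_const, smul_eq_mul, hrep]
    intro b hb
    have h3 : (univ.erase x).filter (fun y => y ∈ B b) = (B b).erase x := by
      ext y
      simp
    rw [h3, card_erase_of_mem (mem_filter.1 hb).2, hk]
  -- arithmetic over the integers
  obtain ⟨m, rfl⟩ : ∃ m, l = m + 1 := ⟨l - 1, by omega⟩
  rw [Nat.add_sub_cancel] at hs hl2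
  have e1' : ((n : ℤ) - 1) * lam = k * (s - 1) := by
    have h1 : ((n - 1 : ℕ) : ℤ) = (n : ℤ) - 1 := by push_cast [hn1]; ring
    have h2 : ((s - 1 : ℕ) : ℤ) = (s : ℤ) - 1 := by push_cast [hs0]; ring
    rw [← h1, ← h2]
    exact_mod_cast e1
  have e2' : ((v : ℤ) - 1) * lam = k * (k - 1) := by
    have h1 : ((v - 1 : ℕ) : ℤ) = (v : ℤ) - 1 := by
      have : 1 ≤ v := by omega
      push_cast [this]; ring
    have h2 : ((k - 1 : ℕ) : ℤ) = (k : ℤ) - 1 := by
      have : 1 ≤ k := by omega
      push_cast [this]; ring
    rw [← h1, ← h2]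
    exact_mod_cast e2
  have hk' : (k : ℤ) = m * s := by exact_mod_cast hs
  have hv' : (v : ℤ) = (m + 1) * n := by rw [hvn]; push_cast; ring
  have hm0 : (0 : ℤ) < m := by exact_mod_cast hl2
  have hs' : (0 : ℤ) < s := by exact_mod_cast hs0
  have hlam' : (0 : ℤ) < lam := by exact_mod_cast hlam
  have e3 : (lam : ℤ) * n = s ^ 2 * (m - 1) := by
    have h1 : (m : ℤ) * (lam * n) = m * (s ^ 2 * (m - 1)) := by
      rw [hv'] at e2'
      rw [hk'] at e1' e2'
      linear_combination e2' - e1'
    exact mul_left_cancel₀ hm0.ne' h1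
  have e4 : (lam : ℤ) = s * (m - s) := by
    rw [hk'] at e1'
    linear_combination e3 - e1'
  have e5 : (s : ℤ) < m := by
    have h1 : 0 < (s : ℤ) * (m - s) := by rw [← e4]; exact hlam'
    have h2 := (mul_pos_iff_of_pos_left hs').1 h1
    linarith
  have e6 : (n : ℤ) * (m - s) = s * (m - 1) := by
    have h1 : (s : ℤ) * (n * (m - s)) = s * (s * (m - 1)) := by
      rw [e4] at e3
      linear_combination e3
    exact mul_left_cancel₀ hs'.ne' h1
  have hsm : s < m := by exact_mod_cast e5
  have e4n : lam = s * (m - s) := by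
    zify [hsm.le]
    exact e4
  have e6n : n * (m - s) = s * (m - 1) := by
    zify [hsm.le, Nat.one_le_iff_ne_zero.2 hl2.ne']
    exact e6
  refine ⟨m, s, n, lam, miss, rfl, hs, hvn, hs0, hsm, e6n, e4n, hl, hcn, hrep, hmiss1, hmiss2,
    ?_, ?_⟩
  · intro x a ha
    have h1 := double_count B x (univ.filter (fun y => f y = a))
    have h2 : ∀ y ∈ univ.filter (fun y => f y = a),
        (univ.filter (fun b : β => x ∈ B b ∧ y ∈ B b)).card = lam := by
      intro y hy
      refine hl x y ?_
      rintro rfl
      exact ha (mem_filter.1 hy).2.symm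
    have h3 : ∀ b : β, ((univ.filter (fun y => f y = a)).filter (fun y => y ∈ B b)).card =
        if miss b = a then 0 else s := by
      intro b
      rw [← hmiss3 b a]
      congr 1
      ext y
      simp only [mem_filter, mem_univ, true_and]
      tauto
    rw [sum_congr rfl h2, sum_const, hcn, smul_eq_mul, sum_congr rfl (fun b _ => h3 b), sum_ite,
      sum_const_zero, zero_add, sum_const, smul_eq_mul] at h1
    have h4 := card_filter_add_card_filter_not (s := univ.filter (fun b : β => x ∈ B b))
      (fun b => miss b = a)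
    rw [hrep, filter_filter] at h4
    have h5 : (((univ.filter (fun b : β => x ∈ B b)).filter (fun b => ¬ miss b = a)).card : ℤ) =
        s * (m - 1) := by
      have h6 : (n : ℤ) * lam =
          ((univ.filter (fun b : β => x ∈ B b)).filter (fun b => ¬ miss b = a)).card * s := by
        exact_mod_cast h1
      have h7 : (s : ℤ) * ((univ.filter (fun b : β => x ∈ B b)).filter
          (fun b => ¬ miss b = a)).card = s * (s * (m - 1)) := by
        rw [e4] at h6
        linear_combination s * e6 - h6
      exact mul_left_cancel₀ hs'.ne' h7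
    zify at h4
    rw [h5, hk'] at h4
    have h8 : ((univ.filter (fun b : β => x ∈ B b ∧ miss b = a)).card : ℤ) = s := by
      linear_combination h4
    exact_mod_cast h8
  · intro a
    have h1 : ∑ b, ((B b).filter (fun x => f x = a)).card = n * k := by
      have h2 : ∀ b, ((B b).filter (fun x => f x = a)).card =
          ∑ x ∈ univ.filter (fun x => f x = a), if x ∈ B b then 1 else 0 := by
        intro b
        rw [← card_filter, filter_filter]
        congr 1
        ext y
        simp only [mem_filter, mem_univ, true_and]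
        tauto
      rw [sum_congr rfl (fun b _ => h2 b), sum_comm, sum_congr rfl (g := fun _ => k), sum_const,
        hcn, smul_eq_mul]
      intro x _
      rw [← card_filter, hrep]
    rw [sum_congr rfl (fun b _ => hmiss3 b a), sum_ite, sum_const_zero, zero_add, sum_const,
      smul_eq_mul] at h1
    have h4 := card_filter_add_card_filter_not (s := (univ : Finset β)) (fun b => miss b = a)
    rw [card_univ, hβ] at h4
    have h5 : ((univ.filter (fun b : β => ¬ miss b = a)).card : ℤ) = n * m := by
      have h6 : ((univ.filter (fun b : β => ¬ miss b = a)).card : ℤ) * s = n * k := by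
        exact_mod_cast h1
      have h7 : (s : ℤ) * (univ.filter (fun b : β => ¬ miss b = a)).card = s * (n * m) := by
        rw [hk'] at h6
        linear_combination h6
      exact mul_left_cancel₀ hs'.ne' h7
    zify at h4
    rw [h5, hv'] at h4
    have h8 : ((univ.filter (fun b : β => miss b = a)).card : ℤ) = n := by
      linear_combination h4
    exact_mod_cast h8

end Pool.Agent.Helper63.UC
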