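import Pool.Agent.Helper63.UC.Net

/-!
# Coloured symmetric designs from the Paley matrices
-/

set_option autoImplicit false

namespace Pool.Agent.Helper63.UC

open Finset

/-- A symmetric design from a normalised Hadamard matrix. -/
theorem coloured_had {Λ E : Type} [Fintype Λ] [Fintype E] [DecidableEq E] (H : Λ → E → ℤ)
    (μ : ℕ) (hμ : 0 < μ) (hE : Fintype.card E = 4 * μ) (hΛ : Fintype.card Λ = 4 * μ - 1)
    (hpm : ∀ t x, H t x = 1 ∨ H t x = -1) (hrow : ∀ t, ∑ x, H t x = 0)
    (horth : ∀ t t', t ≠ t' → ∑ x, H t x * H t' x = 0)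
    (hcol : ∀ x x', x ≠ x' → ∑ t, H t x * H t x' = -1) :
    Coloured ((4 * μ) ^ 2) ((4 * μ - 1) * (2 * μ)) (4 * μ) := by
  classical
  have hEne : Nonempty E := Fintype.card_pos_iff.1 (by omega)
  have hsq : ∀ t x, H t x * H t x = 1 := by
    intro t x
    rcases hpm t x with h | h <;> rw [h] <;> norm_num
  have hcount : ∀ t x, ((univ.filter (fun y => H t x = H t y)).card : ℤ) = 2 * μ := by
    intro t x
    have h1 : ∀ y, (2 : ℤ) * (if H t x = H t y then 1 else 0) = 1 + H t x * H t y := by
      intro y
      rcases hpm t x with h2 | h2 <;> rcases hpm t y with h3 | h3 <;> rw [h2, h3] <;> norm_num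
    have h2 : (2 : ℤ) * (univ.filter (fun y => H t x = H t y)).card = 4 * μ := by
      rw [card_filter]
      push_cast
      rw [mul_sum, sum_congr rfl (fun y _ => h1 y), sum_add_distrib, ← mul_sum, hrow, mul_zero,
        add_zero, sum_const, card_univ, hE]
      simp
    linarith
  have hcount2 : ∀ t t', t ≠ t' → ∀ x x',
      ((univ.filter (fun y => H t x = H t y ∧ H t' x' = H t' y)).card : ℤ) = μ := by
    intro t t' htt x x'
    have h1 : ∀ y, (4 : ℤ) * (if H t x = H t y ∧ H t' x' = H t' y then 1 else 0) =
        1 + H t x * H t y + H t' x' * H t' y + (H t x * H t' x') * (H t y * H t' y) := by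
      intro y
      rcases hpm t x with h2 | h2 <;> rcases hpm t y with h3 | h3 <;>
        rcases hpm t' x' with h4 | h4 <;> rcases hpm t' y with h5 | h5 <;>
        rw [h2, h3, h4, h5] <;> norm_num
    have h2 : (4 : ℤ) * (univ.filter (fun y => H t x = H t y ∧ H t' x' = H t' y)).card = 4 * μ := by
      rw [card_filter]
      push_cast
      rw [mul_sum, sum_congr rfl (fun y _ => h1 y), sum_add_distrib, sum_add_distrib,
        sum_add_distrib, ← mul_sum, ← mul_sum, ← mul_sum, hrow, hrow, horth t t' htt, sum_const,
        card_univ, hE]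
      simp
    linarith
  have hcount3 : ∀ x x', x ≠ x' →
      ((univ.filter (fun t => H t x = H t x')).card : ℤ) = 2 * μ - 1 := by
    intro x x' hxx
    have h1 : ∀ t, (2 : ℤ) * (if H t x = H t x' then 1 else 0) = 1 + H t x * H t x' := by
      intro t
      rcases hpm t x with h2 | h2 <;> rcases hpm t x' with h3 | h3 <;> rw [h2, h3] <;> norm_num
    have h2 : (2 : ℤ) * (univ.filter (fun t => H t x = H t x')).card = 4 * μ - 2 := by
      rw [card_filter]
      push_cast
      rw [mul_sum, sum_congr rfl (fun t _ => h1 t), sum_add_distrib, hcol x x' hxx, sum_const,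
        card_univ, hΛ]
      have h3 : ((4 * μ - 1 : ℕ) : ℤ) = 4 * μ - 1 := by
        push_cast [show 1 ≤ 4 * μ by omega]
        ring
      simp only [nsmul_eq_mul, mul_one]
      rw [h3]
      ring
    linarith
  have h := coloured_net (Λ := Λ) (E := E) (Q := ℤ) H (4 * μ - 1) (2 * μ) μ (2 * μ - 1) hΛ
    (by omega) (by omega) (fun t x => by exact_mod_cast hcount t x)
    (fun t t' htt x x' => by exact_mod_cast hcount2 t t' htt x x')
    (fun x x' hxx => by
      have h1 := hcount3 x x' hxx
      omega) hμ (by
      obtain ⟨a, rfl⟩ : ∃ a, μ = a + 1 := ⟨μ - 1, by omega⟩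
      have h1 : 4 * (a + 1) - 1 - 1 = 4 * a + 2 := by omega
      have h2 : 2 * (a + 1) - 1 = 2 * a + 1 := by omega
      rw [h1, h2]
      ring)
  have h1 : 4 * μ - 1 + 1 = 4 * μ := by omega
  rw [hE, h1, ← sq] at h
  exact h

section paley

variable {K : Type} [Field K] [Fintype K] [DecidableEq K]

theorem sum_char_char (hK : ringChar K ≠ 2) {c : K} (hc : c ≠ 0) :
    ∑ t : K, quadraticChar K t * quadraticChar K (t + c) = -1 := by
  have h0 : quadraticChar K 0 * quadraticChar K (0 + c) = 0 := by
    rw [MulChar.map_zero, zero_mul]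
  rw [← add_sum_erase _ _ (mem_univ (0 : K)), h0, zero_add]
  have h1 : ∑ t ∈ univ.erase (0 : K), quadraticChar K t * quadraticChar K (t + c) =
      ∑ u ∈ univ.erase (1 : K), quadraticChar K u := by
    refine sum_bij' (fun t _ => 1 + c / t) (fun u _ => c / (u - 1)) ?_ ?_ ?_ ?_ ?_
    · intro t ht
      have ht0 : t ≠ 0 := ne_of_mem_erase ht
      rw [mem_erase]
      refine ⟨?_, mem_univ _⟩
      intro h
      have h2 : c / t = 0 := by linear_combination h
      rw [div_eq_zero_iff] at h2
      rcases h2 with h2 | h2
      · exact hc h2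
      · exact ht0 h2
    · intro u hu
      have hu1 : u - 1 ≠ 0 := sub_ne_zero.2 (ne_of_mem_erase hu)
      rw [mem_erase]
      exact ⟨div_ne_zero hc hu1, mem_univ _⟩
    · intro t ht
      have ht0 : t ≠ 0 := ne_of_mem_erase ht
      have h2 : 1 + c / t - 1 = c / t := by ring
      simp only [h2]
      field_simp
    · intro u hu
      have hu1 : u - 1 ≠ 0 := sub_ne_zero.2 (ne_of_mem_erase hu)
      have h2 : c / (c / (u - 1)) = u - 1 := by field_simp
      simp only [h2]
      ring
    · intro t ht
      have ht0 : t ≠ 0 := ne_of_mem_erase ht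
      rw [← map_mul]
      have h2 : t * (t + c) = t ^ 2 * (1 + c / t) := by
        field_simp
      rw [h2, map_mul, quadraticChar_sq_one' ht0, one_mul]
  rw [h1]
  have h2 := quadraticChar_sum_zero hK
  rw [← add_sum_erase _ _ (mem_univ (1 : K)), map_one] at h2
  linarith

/-- The rows of the Paley matrix. -/
def pal (t : K) : Option K → ℤ
  | none => 1
  | some x => quadraticChar K (t - x) - if x = t then 1 else 0

theorem sum_shift (hK : ringChar K ≠ 2) {y y' : K} (h : y ≠ y') :
    ∑ t : K, quadraticChar K (t - y) * quadraticChar K (t - y') = -1 := by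
  rw [← sum_char_char hK (c := y - y') (sub_ne_zero.2 h)]
  refine Fintype.sum_equiv (Equiv.subRight y) _ _ (fun t => ?_)
  simp only [Equiv.subRight_apply]
  congr 2
  ring

theorem coloured_paley {μ : ℕ} (hμ : 0 < μ) (hK : Fintype.card K + 1 = 4 * μ) :
    Coloured ((4 * μ) ^ 2) ((4 * μ - 1) * (2 * μ)) (4 * μ) := by
  have hmod : Fintype.card K % 4 = 3 := by omega
  have hchar : ringChar K ≠ 2 := by
    intro h
    have := FiniteField.even_card_of_char_two h
    omega
  have hneg : quadraticChar K (-1) = -1 := by
    rw [quadraticChar_neg_one hchar, ZMod.χ₄_nat_three_mod_four hmod]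
  have hanti : ∀ a : K, quadraticChar K (-a) = -quadraticChar K a := by
    intro a
    have h1 : -a = (-1) * a := by ring
    rw [h1, map_mul, hneg]
    ring
  have hsum : ∑ a : K, quadraticChar K a = 0 := quadraticChar_sum_zero hchar
  have hsum1 : ∀ y : K, ∑ t : K, quadraticChar K (t - y) = 0 := by
    intro y
    rw [← hsum]
    exact Fintype.sum_equiv (Equiv.subRight y) _ _ (fun t => rfl)
  have hsum2 : ∀ t : K, ∑ x : K, quadraticChar K (t - x) = 0 := by
    intro t
    rw [← hsum]
    exact Fintype.sum_equiv (Equiv.subLeft t) _ _ (fun x => rfl)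
  refine coloured_had (Λ := K) (E := Option K) pal μ hμ (by rw [Fintype.card_option, hK])
    (by omega) ?_ ?_ ?_ ?_
  · rintro t (_ | x)
    · exact Or.inl rfl
    · simp only [pal]
      by_cases h : x = t
      · subst h
        right
        rw [sub_self, MulChar.map_zero, if_pos rfl]
        norm_num
      · simp only [if_neg h, sub_zero]
        exact quadraticChar_dichotomy (sub_ne_zero.2 (Ne.symm h))
  · intro t
    rw [Fintype.sum_option]
    simp only [pal]
    rw [sum_sub_distrib, hsum2, sum_ite_eq']
    simp
  · intro t t' htt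
    rw [Fintype.sum_option]
    simp only [pal]
    have h1 : ∀ x : K, (quadraticChar K (t - x) - if x = t then 1 else 0) *
        (quadraticChar K (t' - x) - if x = t' then 1 else 0) =
        quadraticChar K (t - x) * quadraticChar K (t' - x) -
          (if x = t then quadraticChar K (t' - x) else 0) -
          (if x = t' then quadraticChar K (t - x) else 0) := by
      intro x
      by_cases h2 : x = t
      · subst h2
        simp [htt]
      · by_cases h3 : x = t'
        · subst h3
          simp [h2]
        · simp [h2, h3]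
    rw [sum_congr rfl (fun x _ => h1 x), sum_sub_distrib, sum_sub_distrib, sum_ite_eq',
      sum_ite_eq']
    have h4 : ∑ x : K, quadraticChar K (t - x) * quadraticChar K (t' - x) = -1 := by
      rw [← sum_shift hchar htt]
      refine sum_congr rfl (fun x _ => ?_)
      rw [← neg_sub x t, ← neg_sub x t', hanti, hanti]
      ring
    rw [h4, ← neg_sub t' t, hanti]
    simp
  · rintro (_ | y) (_ | y') hyy
    · exact absurd rfl hyy
    · simp only [pal, one_mul]
      rw [sum_sub_distrib, hsum1, sum_ite_eq]
      simp
    · simp only [pal, mul_one]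
      rw [sum_sub_distrib, hsum1, sum_ite_eq]
      simp
    · have hyy' : y ≠ y' := fun h => hyy (by rw [h])
      simp only [pal]
      have h1 : ∀ t : K, (quadraticChar K (t - y) - if y = t then 1 else 0) *
          (quadraticChar K (t - y') - if y' = t then 1 else 0) =
          quadraticChar K (t - y) * quadraticChar K (t - y') -
            (if y = t then quadraticChar K (t - y') else 0) -
            (if y' = t then quadraticChar K (t - y) else 0) := by
        intro t
        by_cases h2 : y = t
        · subst h2
          simp [Ne.symm hyy']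
        · by_cases h3 : y' = t
          · subst h3
            simp [h2]
          · simp [h2, h3]
      rw [sum_congr rfl (fun t _ => h1 t), sum_sub_distrib, sum_sub_distrib, sum_ite_eq,
        sum_ite_eq, sum_shift hchar hyy', ← neg_sub y y', hanti]
      simp

end paley

end Pool.Agent.Helper63.UC
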