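import Pool.Agent.Helper63.UC.Defs
import Pool.Agent.Helper63.UC.Lin

/-!
# Complements of projective spaces, coloured by a spread
-/

set_option autoImplicit false

namespace Pool.Agent.Helper63.UC

open Finset Module
open scoped LinearAlgebra.Projectivization

section

variable {K W : Type} [Field K] [AddCommGroup W] [Module K W]

theorem rep_indep {p p' : ℙ K W} (h : p ≠ p') {a b : K} (hab : a • p.rep + b • p'.rep = 0) :
    a = 0 ∧ b = 0 := by
  by_cases ha : a = 0
  · refine ⟨ha, ?_⟩
    rw [ha, zero_smul, zero_add] at hab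
    exact (smul_eq_zero.1 hab).resolve_right p'.rep_nonzero
  · exfalso
    apply h
    rw [← p.mk_rep, ← p'.mk_rep, Projectivization.mk_eq_mk_iff']
    refine ⟨-(a⁻¹ * b), ?_⟩
    have h1 : a • p.rep = -(b • p'.rep) := eq_neg_of_add_eq_zero_left hab
    have h2 : p.rep = a⁻¹ • (a • p.rep) := by rw [smul_smul, inv_mul_cancel₀ ha, one_smul]
    rw [h2, h1, smul_neg, smul_smul, neg_smul]

variable [Fintype K] [DecidableEq K] [Fintype W]

theorem card_both_ne {f g : W →ₗ[K] K} (h : Indep f g) :
    (univ.filter (fun w => f w ≠ 0 ∧ g w ≠ 0)).card * (Fintype.card K) ^ 2 =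
      (Fintype.card K - 1) ^ 2 * Fintype.card W := by
  classical
  let T : Finset (K × K) := (univ.filter (fun u => u ≠ 0)) ×ˢ (univ.filter (fun u => u ≠ 0))
  have hT : T.card = (Fintype.card K - 1) ^ 2 := by
    rw [card_product, sq, filter_ne', card_erase_of_mem (mem_univ _), card_univ]
  rw [card_eq_sum_card_fiberwise (f := fun w => (f w, g w)) (t := T), sum_mul,
    sum_congr rfl (g := fun _ => Fintype.card W), sum_const, smul_eq_mul, hT]
  · rintro ⟨u, v⟩ huv
    rw [mem_product, mem_filter, mem_filter] at huv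
    rw [← card_level_two h u v]
    congr 2
    ext w
    simp only [mem_filter, mem_univ, true_and, Prod.mk.injEq]
    constructor
    · exact fun h => h.2
    · rintro ⟨rfl, rfl⟩
      exact ⟨⟨huv.1.2, huv.2.2⟩, rfl, rfl⟩
  · intro w hw
    have hw' := (mem_filter.1 (mem_coe.1 hw)).2
    exact mem_coe.2 (mem_product.2 ⟨mem_filter.2 ⟨mem_univ _, hw'.1⟩,
      mem_filter.2 ⟨mem_univ _, hw'.2⟩⟩)

theorem card_ne {f : W →ₗ[K] K} (h : f ≠ 0) :
    (univ.filter (fun w => f w ≠ 0)).card * Fintype.card K =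
      (Fintype.card K - 1) * Fintype.card W := by
  classical
  have h1 := card_level h 0
  have h2 := card_filter_add_card_filter_not (s := (univ : Finset W)) (fun w => f w = 0)
  rw [card_univ] at h2
  have h3 : 1 ≤ Fintype.card K := Fintype.card_pos
  obtain ⟨c, hc⟩ : ∃ c, Fintype.card K = c + 1 := ⟨Fintype.card K - 1, by omega⟩
  rw [hc] at h1 ⊢
  rw [Nat.add_sub_cancel]
  have h4 : (univ.filter (fun w => ¬ f w = 0)).card = (univ.filter (fun w => f w ≠ 0)).card := rfl
  rw [h4] at h2
  nlinarith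

end

section

variable {K F : Type} [Field K] [Fintype K] [DecidableEq K] [Field F] [Fintype F]
  [DecidableEq F] [Algebra K F]

/-- The bracket. -/
def br (a x : F × F) : F := a.1 * x.1 + a.2 * x.2

omit [Fintype K] [DecidableEq K] [Fintype F] [DecidableEq F] in
theorem br_smul_right (u : K) (a w : F × F) : br a (u • w) = u • br a w := by
  show a.1 * (u • w.1) + a.2 * (u • w.2) = u • (a.1 * w.1 + a.2 * w.2)
  rw [mul_smul_comm, mul_smul_comm, smul_add]

omit [Fintype K] [DecidableEq K] [Fintype F] [DecidableEq F] in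
theorem br_smul_left (u : K) (a w : F × F) : br (u • a) w = u • br a w := by
  show (u • a.1) * w.1 + (u • a.2) * w.2 = u • (a.1 * w.1 + a.2 * w.2)
  rw [smul_mul_assoc, smul_mul_assoc, smul_add]

omit [Fintype F] [DecidableEq F] in
theorem br_add_right (a w w' : F × F) : br a (w + w') = br a w + br a w' := by
  show a.1 * (w.1 + w'.1) + a.2 * (w.2 + w'.2) = a.1 * w.1 + a.2 * w.2 + (a.1 * w'.1 + a.2 * w'.2)
  ring

omit [Fintype F] [DecidableEq F] in
theorem br_add_left (a a' w : F × F) : br (a + a') w = br a w + br a' w := by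
  show (a.1 + a'.1) * w.1 + (a.2 + a'.2) * w.2 = a.1 * w.1 + a.2 * w.2 + (a'.1 * w.1 + a'.2 * w.2)
  ring

/-- The functional `w ↦ τ (br w x)`. -/
def fun2 (τ : F →ₗ[K] K) (x : F × F) : (F × F) →ₗ[K] K where
  toFun w := τ (br w x)
  map_add' w w' := by rw [br_add_left, map_add]
  map_smul' c w := by rw [RingHom.id_apply, br_smul_left, map_smul]

omit [Fintype K] [DecidableEq K] [Fintype F] [DecidableEq F] in
theorem fun2_apply (τ : F →ₗ[K] K) (x w : F × F) : fun2 τ x w = τ (br w x) := rfl

omit [Fintype K] [DecidableEq K] [Fintype F] in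
theorem fun2_ne {τ : F →ₗ[K] K} (hτ : τ 1 ≠ 0) {z : F × F} (hz : z ≠ 0) :
    ∃ w, fun2 τ z w ≠ 0 := by
  by_cases h1 : z.1 = 0
  · have h2 : z.2 ≠ 0 := fun h2 => hz (Prod.ext h1 h2)
    refine ⟨(0, z.2⁻¹), ?_⟩
    rw [fun2_apply, br, zero_mul, zero_add, inv_mul_cancel₀ h2]
    exact hτ
  · refine ⟨(z.1⁻¹, 0), ?_⟩
    rw [fun2_apply, br, zero_mul, add_zero, inv_mul_cancel₀ h1]
    exact hτ

omit [Fintype F] [DecidableEq F] in
theorem exists_perp {a z : F × F} (ha : a ≠ 0) (hz : z ≠ 0) (h : br a z = 0) :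
    ∃ c : F, c • ((a.2, -a.1) : F × F) = z := by
  unfold br at h
  by_cases h1 : a.1 = 0
  · have h2 : a.2 ≠ 0 := fun h2 => ha (Prod.ext h1 h2)
    rw [h1, zero_mul, zero_add] at h
    have h3 : z.2 = 0 := (mul_eq_zero.1 h).resolve_left h2
    refine ⟨z.1 / a.2, Prod.ext ?_ ?_⟩
    · show z.1 / a.2 * a.2 = z.1
      field_simp
    · show z.1 / a.2 * (-a.1) = z.2
      rw [h1, h3]
      ring
  · refine ⟨-z.2 / a.1, Prod.ext ?_ ?_⟩
    · show -z.2 / a.1 * a.2 = z.1
      field_simp
      linear_combination -h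
    · show -z.2 / a.1 * (-a.1) = z.2
      field_simp

theorem coloured_proj {m : ℕ} (hm : finrank K F = m) :
    Coloured (∑ i ∈ range (2 * m), Fintype.card K ^ i)
      (Fintype.card K ^ (2 * m - 1)) (Fintype.card K ^ m + 1) := by
  classical
  set q := Fintype.card K with hq
  have hq2 : 2 ≤ q := Fintype.one_lt_card
  have hK : Module.Finite K F := Module.Finite.of_finite
  have hm0 : 0 < m := by rw [← hm]; exact finrank_pos
  obtain ⟨τ, hτ⟩ : ∃ τ : F →ₗ[K] K, τ 1 ≠ 0 := by
    by_contra hne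
    push Not at hne
    exact one_ne_zero ((Module.forall_dual_apply_eq_zero_iff K (1 : F)).1 hne)
  have hF : Fintype.card F = q ^ m := by rw [card_eq_pow_finrank (K := K), hm]
  have hW : Fintype.card (F × F) = q ^ (2 * m) := by
    rw [Fintype.card_prod, hF, ← pow_add]; congr 1; ring
  haveI : Fintype (ℙ K (F × F)) := Fintype.ofFinite _
  haveI : Fintype (ℙ F (F × F)) := Fintype.ofFinite _
  have hV : Fintype.card (ℙ K (F × F)) = ∑ i ∈ range (2 * m), q ^ i := by
    rw [← Nat.card_eq_fintype_card, Projectivization.card_of_finrank K (F × F) (n := 2 * m)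
      (by rw [finrank_prod, hm]; ring), Nat.card_eq_fintype_card]
  have hC : Fintype.card (ℙ F (F × F)) = q ^ m + 1 := by
    rw [← Nat.card_eq_fintype_card, Projectivization.card_of_finrank_two F (F × F)
      (by rw [finrank_prod, finrank_self]), Nat.card_eq_fintype_card, hF]
  let B : ℙ K (F × F) → Finset (ℙ K (F × F)) := fun a =>
    univ.filter (fun x => τ (br a.rep x.rep) ≠ 0)
  let f : ℙ K (F × F) → ℙ F (F × F) := fun x => Projectivization.mk F x.rep x.rep_nonzero
  have hperp : ∀ a : ℙ K (F × F), ((a.rep.2, -a.rep.1) : F × F) ≠ 0 := by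
    intro a h
    apply a.rep_nonzero
    have h1 := congrArg Prod.fst h
    have h2 := congrArg Prod.snd h
    exact Prod.ext (neg_eq_zero.1 h2) h1
  let miss : ℙ K (F × F) → ℙ F (F × F) := fun a =>
    Projectivization.mk F ((a.rep.2, -a.rep.1) : F × F) (hperp a)
  obtain ⟨m', rfl⟩ : ∃ m', m = m' + 1 := ⟨m - 1, by omega⟩
  have hs : 1 ≤ q ^ m' := Nat.one_le_pow _ _ (by omega)
  have hqm : 2 ≤ q ^ (m' + 1) := by
    rw [pow_succ]
    nlinarith
  have hkk : (q ^ (m' + 1) + 1 - 1) * q ^ m' = q ^ (2 * (m' + 1) - 1) := by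
    rw [Nat.add_sub_cancel, ← pow_add]
    congr 1
    omega
  have hmain := coloured_of (∑ i ∈ range (2 * (m' + 1)), q ^ i) (q ^ (m' + 1) + 1) (q ^ m')
    ((q - 1) * q ^ (2 * m')) B f miss hs (by omega) ?_ ?_ hC hV hV ?_ ?_ ?_
    (Nat.mul_pos (by omega) (Nat.pow_pos (by omega))) ?_
  · rw [hkk] at hmain
    exact hmain
  · rw [Nat.add_sub_cancel]
    nlinarith
  · rw [hkk, show 2 * (m' + 1) - 1 = 2 * m' + 1 by omega, show 2 * (m' + 1) = 2 * m' + 1 + 1 by
      ring, sum_range_succ, sum_range_succ']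
    have : 0 < q ^ 0 := by simp
    omega
  · -- surjective
    intro c
    refine ⟨Projectivization.mk K c.rep c.rep_nonzero, ?_⟩
    obtain ⟨u, hu⟩ := Projectivization.exists_smul_eq_mk_rep K c.rep c.rep_nonzero
    conv_rhs => rw [← c.mk_rep]
    rw [Projectivization.mk_eq_mk_iff']
    refine ⟨algebraMap K F (u : K), ?_⟩
    rw [← hu, algebraMap_smul]
    rfl
  · intro a x hx he
    rw [mem_filter] at hx
    apply hx.2
    rw [Projectivization.mk_eq_mk_iff'] at he
    obtain ⟨c, hc⟩ := he
    have h1 : br a.rep x.rep = 0 := by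
      rw [← hc]
      show a.rep.1 * (c * a.rep.2) + a.rep.2 * (c * -a.rep.1) = 0
      ring
    rw [h1, map_zero]
  · intro a c hc
    have hz : br a.rep c.rep ≠ 0 := by
      intro h
      obtain ⟨t, ht⟩ := exists_perp a.rep_nonzero c.rep_nonzero h
      apply hc
      conv_lhs => rw [← c.mk_rep]
      rw [Projectivization.mk_eq_mk_iff']
      exact ⟨t, ht⟩
    have h1 := card_proj (K := K) (W := F × F)
      (fun w => τ (br a.rep w) ≠ 0 ∧ ∃ h : w ≠ 0, Projectivization.mk F w h = c)
      (fun h => h.1 (by rw [show br a.rep 0 = 0 by simp [br], map_zero]))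
      (fun u w hu hw => by
        obtain ⟨h2, h3, h4⟩ := hw
        refine ⟨?_, smul_ne_zero hu h3, ?_⟩
        · rw [br_smul_right, map_smul]
          exact smul_ne_zero hu h2
        · rw [← h4, Projectivization.mk_eq_mk_iff']
          exact ⟨algebraMap K F u, by rw [algebraMap_smul]⟩)
    have h2 : (univ.filter (fun w : F × F => τ (br a.rep w) ≠ 0 ∧
        ∃ h : w ≠ 0, Projectivization.mk F w h = c)).card =
        (univ.filter (fun t : F => τ t ≠ 0)).card := by
      symm
      refine card_bij (fun t _ => (t / br a.rep c.rep) • c.rep) ?_ ?_ ?_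
      · intro t ht
        rw [mem_filter] at ht ⊢
        have h3 : br a.rep ((t / br a.rep c.rep) • c.rep) = t := by
          rw [br_smul_right, smul_eq_mul, div_mul_cancel₀ _ hz]
        have ht0 : t ≠ 0 := fun h => ht.2 (by rw [h, map_zero])
        refine ⟨mem_univ _, by rw [h3]; exact ht.2,
          smul_ne_zero (div_ne_zero ht0 hz) c.rep_nonzero, ?_⟩
        conv_rhs => rw [← c.mk_rep]
        rw [Projectivization.mk_eq_mk_iff']
        exact ⟨_, rfl⟩
      · intro t _ t' _ htt
        have h3 := smul_left_injective F c.rep_nonzero htt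
        exact (div_left_inj' hz).1 h3
      · intro w hw
        rw [mem_filter] at hw
        obtain ⟨-, h3, h4, h5⟩ := hw
        rw [← c.mk_rep, Projectivization.mk_eq_mk_iff'] at h5
        obtain ⟨u, hu⟩ := h5
        refine ⟨br a.rep w, mem_filter.2 ⟨mem_univ _, h3⟩, ?_⟩
        rw [← hu]
        rw [br_smul_right, smul_eq_mul, mul_div_cancel_right₀ _ hz]
    have hτ0 : τ ≠ 0 := fun h => hτ (by rw [h, LinearMap.zero_apply])
    have h3 := card_ne hτ0
    rw [hF, ← hq, pow_succ, ← mul_assoc] at h3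
    have h4 := Nat.eq_of_mul_eq_mul_right (by omega) h3
    have h5 : ((B a).filter (fun x => f x = c)).card =
        (univ.filter (fun p : ℙ K (F × F) => τ (br a.rep p.rep) ≠ 0 ∧
          ∃ h : p.rep ≠ 0, Projectivization.mk F p.rep h = c)).card := by
      congr 1
      ext p
      simp only [B, f, mem_filter, mem_univ, true_and]
      exact ⟨fun h => ⟨h.1, p.rep_nonzero, h.2⟩, fun h => ⟨h.1, h.2.2⟩⟩
    rw [h5]
    rw [h2, h4, ← hq, mul_comm] at h1
    exact (Nat.eq_of_mul_eq_mul_right (by omega) h1).symm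
  · intro x y hxy
    have hind : Indep (fun2 τ x.rep) (fun2 τ y.rep) := by
      intro a b hab
      apply rep_indep hxy
      by_contra hne
      obtain ⟨w, hw⟩ := fun2_ne hτ hne
      apply hw
      have h1 := LinearMap.congr_fun hab w
      rw [LinearMap.add_apply, LinearMap.smul_apply, LinearMap.smul_apply, fun2_apply, fun2_apply,
        LinearMap.zero_apply] at h1
      rw [fun2_apply, br_add_right, br_smul_right, br_smul_right, map_add, map_smul, map_smul]
      exact h1
    have h1 := card_both_ne hind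
    rw [hW, ← hq, show 2 * (m' + 1) = 2 * m' + 2 by ring, pow_add, ← mul_assoc] at h1
    have h2 := Nat.eq_of_mul_eq_mul_right (Nat.pow_pos (by omega)) h1
    have h3 := card_proj (K := K) (W := F × F)
      (fun w => fun2 τ x.rep w ≠ 0 ∧ fun2 τ y.rep w ≠ 0)
      (fun h => h.1 (map_zero _))
      (fun u w hu hw => by
        rw [map_smul, map_smul]
        exact ⟨smul_ne_zero hu hw.1, smul_ne_zero hu hw.2⟩)
    rw [h2, ← hq, sq, mul_assoc, mul_comm] at h3
    have h4 := Nat.eq_of_mul_eq_mul_right (by omega) h3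
    rw [h4]
    congr 1
    ext p
    simp only [B, mem_filter, mem_univ, true_and, fun2_apply]

end

end Pool.Agent.Helper63.UC
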