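import Pool.Agent.Helper63.UC.Defs

/-!
# A coloured symmetric design with parameters `(36, 15)` and six colours
-/

set_option autoImplicit false

namespace Pool.Agent.Helper63.UC

open Finset

/-- The blocks as bit masks. -/
def rows36 : List ℕ :=
  [30305338048, 47674911040, 27729147456, 38431531904, 8205999232, 53811502336,
   15392092204, 27543097366, 56680091667, 54434521130, 44142895129, 7965720613,
   23022013195, 44768167333, 54120154329, 47844952718, 7644382834, 28757985652,
   23135810025, 15904959635, 41540588380, 28101945095, 44459793514, 52965788340,
   37586500167, 55838450918, 47254656817, 11818090970, 27928238761, 22561598748,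
   361664967, 248592818, 649186381, 439121564, 694856305, 827803434]

/-- Incidence. -/
def inc36 (b x : ℕ) : Bool := (rows36.getD b 0).testBit x

/-- The colour of a point, and the colour missing in a block. -/
def col36 (x : Fin 36) : Fin 6 := ⟨x.val / 6, by omega⟩

theorem occ36 : ∀ b : Fin 36, ∀ c : Fin 6,
    ((univ.filter (fun x : Fin 36 => inc36 b.val x.val = true)).filter
      (fun x => col36 x = c)).card = if c = col36 b then 0 else 3 := by
  decide +kernel

theorem pair36 : ∀ x y : Fin 36, x ≠ y →
    (univ.filter (fun b : Fin 36 => inc36 b.val x.val = true ∧ inc36 b.val y.val = true)).card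
      = 6 := by
  decide +kernel

theorem coloured36 : Coloured 36 15 6 := by
  have h := coloured_of (V := Fin 36) (β := Fin 36) (C := Fin 6) 36 6 3 6
    (fun b => univ.filter (fun x : Fin 36 => inc36 b.val x.val = true)) col36 col36
    (by norm_num) (by norm_num) (by norm_num) (by norm_num) (Fintype.card_fin _)
    (Fintype.card_fin _) (Fintype.card_fin _) ?_ ?_ ?_ (by norm_num) ?_
  · exact h
  · intro c
    exact ⟨⟨6 * c.val, by omega⟩, Fin.ext (by simp [col36])⟩
  · intro b x hx he
    have h1 := occ36 b (col36 b)
    rw [if_pos rfl, card_eq_zero, filter_eq_empty_iff] at h1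
    exact h1 hx he
  · intro b c hc
    have h1 := occ36 b c
    rw [if_neg hc] at h1
    exact h1
  · intro x y hxy
    rw [← pair36 x y hxy]
    refine congrArg card (filter_congr (fun b _ => ?_))
    simp only [mem_filter, mem_univ, true_and]

end Pool.Agent.Helper63.UC
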