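import Pool.Agent.Helper63.UC.AffRes
import Pool.Agent.Helper63.UC.BushLift
import Pool.Agent.Helper63.UC.Paley
import Pool.Agent.Helper63.UC.Proj
import Pool.Agent.Helper63.UC.Spor

/-!
# The families for prime powers
-/

set_option autoImplicit false

namespace Pool.Agent.Helper63.UC

open Finset

theorem exists_field {q : ℕ} (h : IsPrimePow q) :
    ∃ (K : Type) (_ : Field K) (_ : Fintype K) (_ : DecidableEq K), Fintype.card K = q := by
  classical
  obtain ⟨p, k, hp, hk, rfl⟩ := (isPrimePow_nat_iff q).1 h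
  have : Fact p.Prime := ⟨hp⟩
  have : Fintype (GaloisField p k) := Fintype.ofFinite _
  refine ⟨GaloisField p k, inferInstance, inferInstance, inferInstance, ?_⟩
  rw [← Nat.card_eq_fintype_card]
  exact GaloisField.card p k hk.ne'

/-- McFarland parameters. -/
theorem coloured_mcfarland {q n : ℕ} (hq : IsPrimePow q) (hn : 2 ≤ n) :
    Coloured ((∑ i ∈ range n, q ^ i + 1) * q ^ n) ((∑ i ∈ range n, q ^ i) * q ^ (n - 1))
      (∑ i ∈ range n, q ^ i + 1) ∧
    (IsPrimePow (∑ i ∈ range n, q ^ i) →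
      Coloured (((∑ i ∈ range n, q ^ i) ^ 2 + 1) * ((∑ i ∈ range n, q ^ i + 1) * q ^ n))
        ((∑ i ∈ range n, q ^ i) ^ 2 * ((∑ i ∈ range n, q ^ i) * q ^ (n - 1)))
        ((∑ i ∈ range n, q ^ i) ^ 2 + 1)) := by
  obtain ⟨m, rfl⟩ : ∃ m, n = m + 2 := ⟨n - 2, by omega⟩
  obtain ⟨K, _, _, _, rfl⟩ := exists_field hq
  obtain ⟨Λ, E, _, _, π, h⟩ := exists_affine (K := K) m
  set q := Fintype.card K with hqK
  have hq2 : 2 ≤ q := Fintype.one_lt_card
  have hsum : ∑ i ∈ range (m + 2), q ^ i = q * (∑ i ∈ range (m + 1), q ^ i) + 1 := by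
    rw [sum_range_succ', mul_sum]
    simp only [pow_zero, pow_succ']
  have hl0 : 1 ≤ ∑ i ∈ range (m + 1), q ^ i := by
    rw [sum_range_succ']
    simp
  have e1 : q ^ 2 * q ^ m = q ^ (m + 2) := by ring
  have e2 : q * q ^ m = q ^ (m + 2 - 1) := by
    rw [show m + 2 - 1 = m + 1 by omega]
    ring
  refine ⟨?_, fun hr => ?_⟩
  · have h1 := h.coloured (by omega) (Nat.pow_pos (by omega)) hl0
    rw [hsum, ← e1, ← e2]
    exact h1
  · obtain ⟨F, _, _, _, hF⟩ := exists_field (hr.pow two_ne_zero)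
    have h1 := h.coloured_lift (F := F) (by omega) (Nat.pow_pos (by omega)) hl0
      (by rw [hF, hsum])
    rw [hsum, ← e1, ← e2]
    exact h1

/-- Complements of projective spaces. -/
theorem coloured_spread {q m : ℕ} (hq : IsPrimePow q) (hm : 1 ≤ m) :
    Coloured (∑ i ∈ range (2 * m), q ^ i) (q ^ (2 * m - 1)) (q ^ m + 1) := by
  classical
  obtain ⟨p, k, hp, hk, rfl⟩ := (isPrimePow_nat_iff q).1 hq
  have : Fact p.Prime := ⟨hp⟩
  have : NeZero m := ⟨by omega⟩
  have : Fintype (GaloisField p k) := Fintype.ofFinite _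
  have : Fintype (FiniteField.Extension (GaloisField p k) p m) := Fintype.ofFinite _
  have h1 := coloured_proj (K := GaloisField p k)
    (F := FiniteField.Extension (GaloisField p k) p m) (m := m)
    (FiniteField.finrank_extension (GaloisField p k) p m)
  have h2 : Fintype.card (GaloisField p k) = p ^ k := by
    rw [← Nat.card_eq_fintype_card]
    exact GaloisField.card p k hk.ne'
  rw [h2] at h1
  exact h1

/-- The lifting of the designs of Bush-type Hadamard matrices. -/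
theorem coloured_bush {s : ℕ} (hs : IsPrimePow (2 * s - 1))
    (h : Coloured ((2 * s) ^ 2) ((2 * s - 1) * s) (2 * s)) :
    Coloured (((2 * s - 1) ^ 2 + 1) * (2 * s) ^ 2) ((2 * s - 1) ^ 2 * ((2 * s - 1) * s))
      ((2 * s - 1) ^ 2 + 1) := by
  have h2 : 2 ≤ 2 * s - 1 := hs.two_le
  obtain ⟨F, _, _, _, hF⟩ := exists_field (hs.pow two_ne_zero)
  obtain ⟨m, hm⟩ : ∃ m, 2 * s - 1 = m := ⟨_, rfl⟩
  have hm1 : m + 1 = 2 * s := by omega
  rw [hm] at h hF ⊢
  rw [← hm1] at h ⊢
  exact bush_lift hm1 hF h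

/-- The lifted Paley family. -/
theorem coloured_paley_lift {r : ℕ} (hr : IsPrimePow r) (h4 : r % 4 = 3) :
    Coloured ((r ^ 2 + 1) * (r + 1) ^ 2) (r ^ 3 * ((r + 1) / 2)) (r ^ 2 + 1) := by
  obtain ⟨K, _, _, _, hK⟩ := exists_field hr
  obtain ⟨μ, hμ⟩ : ∃ μ, r + 1 = 4 * μ := ⟨(r + 1) / 4, by omega⟩
  have hr1 : 4 * μ - 1 = r := by omega
  have hμ0 : 0 < μ := by omega
  have h1 := coloured_paley (K := K) hμ0 (by rw [hK, hμ])
  have h5 : 2 * (2 * μ) = 4 * μ := by ring
  have h2 := coloured_bush (s := 2 * μ) (by rw [h5, hr1]; exact hr) (by rw [h5]; exact h1)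
  rw [h5, hr1, ← hμ] at h2
  have h3 : (r + 1) / 2 = 2 * μ := by omega
  rw [h3]
  have h6 : r ^ 2 * (r * (2 * μ)) = r ^ 3 * (2 * μ) := by ring
  rw [h6] at h2
  exact h2

theorem coloured_936 : Coloured 936 375 26 := by
  have h : IsPrimePow (2 * 3 - 1) := by
    norm_num
    exact (Nat.prime_five).isPrimePow
  exact coloured_bush (s := 3) h coloured36

end Pool.Agent.Helper63.UC
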