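import Pool.Agent.Helper63.UC.Defs
import Pool.Agent.Helper63.UC.Net

/-!
# Lifting through the weighing matrix of the projective line over a finite field
-/

set_option autoImplicit false

namespace Pool.Agent.Helper63.UC

open Finset

section pw

variable {F : Type} [Field F]

/-- The entries `det (v_I, v_J)` of the balanced generalized weighing matrix of the projective
line: `v_∞ = (0, 1)`, `v_a = (1, a)`. -/
def pw : Option F → Option F → F
  | none, none => 0
  | some _, none => 1
  | none, some _ => -1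
  | some a, some b => b - a

theorem pw_ne {I J : Option F} (h : I ≠ J) : pw I J ≠ 0 := by
  rcases I with _ | a <;> rcases J with _ | b
  · exact absurd rfl h
  · exact neg_ne_zero.2 one_ne_zero
  · exact one_ne_zero
  · exact sub_ne_zero.2 (fun he => h (by rw [he]))

variable [Fintype F] [DecidableEq F]

theorem sum_ratio (G : F → ℕ) {I I' : Option F} (h : I ≠ I') :
    ∑ J ∈ univ.filter (fun J => J ≠ I ∧ J ≠ I'), G (pw I J / pw I' J) =
      ∑ z ∈ univ.filter (fun z : F => z ≠ 0), G z := by
  refine sum_bij (fun J _ => pw I J / pw I' J) ?_ ?_ ?_ (fun _ _ => rfl)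
  · intro J hJ
    rw [mem_filter] at hJ ⊢
    exact ⟨mem_univ _, div_ne_zero (pw_ne (Ne.symm hJ.2.1)) (pw_ne (Ne.symm hJ.2.2))⟩
  · intro J hJ J' hJ' he
    rw [mem_filter] at hJ hJ'
    obtain ⟨-, h1, h2⟩ := hJ
    obtain ⟨-, h3, h4⟩ := hJ'
    have n1 := pw_ne (Ne.symm h1)
    have n2 := pw_ne (Ne.symm h2)
    have n3 := pw_ne (Ne.symm h3)
    have n4 := pw_ne (Ne.symm h4)
    rw [div_eq_div_iff n2 n4] at he
    rcases I with _ | a <;> rcases I' with _ | a' <;> rcases J with _ | b <;>
      rcases J' with _ | b' <;> simp only [pw] at he n1 n2 n3 n4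
    all_goals first
      | exact absurd rfl h
      | exact absurd rfl h1
      | exact absurd rfl h2
      | exact absurd rfl h3
      | exact absurd rfl h4
      | rfl
      | skip
    · -- I = none, I' = some a'
      congr 1
      linear_combination he
    · -- I = some a, I' = none
      congr 1
      linear_combination -he
    · exfalso
      apply h
      congr 1
      linear_combination he
    · exfalso
      apply h
      congr 1
      linear_combination -he
    · congr 1
      have h5 : (a' - a) * (b' - b) = 0 := by linear_combination he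
      rcases mul_eq_zero.1 h5 with h6 | h6
      · exact absurd (by rw [sub_eq_zero.1 h6]) h
      · exact (sub_eq_zero.1 h6).symm
  · intro z hz
    have hz0 := (mem_filter.1 hz).2
    rcases I with _ | a <;> rcases I' with _ | a'
    · exact absurd rfl h
    · refine ⟨some (a' - z⁻¹), ?_, ?_⟩
      · rw [mem_filter]
        refine ⟨mem_univ _, by simp, ?_⟩
        simp [hz0]
      · simp only [pw]
        field_simp
        ring
    · refine ⟨some (a - z), ?_, ?_⟩
      · rw [mem_filter]
        refine ⟨mem_univ _, ?_, by simp⟩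
        simp [hz0]
      · simp only [pw]
        field_simp
        ring
    · have haa : a ≠ a' := fun he => h (by rw [he])
      by_cases h1 : z = 1
      · refine ⟨none, by simp, ?_⟩
        simp [pw, h1]
      · have h2 : (1 : F) - z ≠ 0 := sub_ne_zero.2 (Ne.symm h1)
        refine ⟨some ((a - z * a') / (1 - z)), ?_, ?_⟩
        · rw [mem_filter]
          refine ⟨mem_univ _, ?_, ?_⟩
          · rw [Ne, Option.some.injEq, div_eq_iff h2]
            intro he
            have h3 : z * (a - a') = 0 := by linear_combination he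
            rcases mul_eq_zero.1 h3 with h4 | h4
            · exact hz0 h4
            · exact haa (sub_eq_zero.1 h4)
          · rw [Ne, Option.some.injEq, div_eq_iff h2]
            intro he
            apply haa
            linear_combination he
        · simp only [pw]
          have h5 : (a - z * a') / (1 - z) - a' = (a - a') / (1 - z) := by
            field_simp
            ring
          have h6 : (a - z * a') / (1 - z) - a = z * (a - a') / (1 - z) := by
            field_simp
            ring
          have h7 : a - a' ≠ 0 := sub_ne_zero.2 haa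
          rw [h5, h6]
          field_simp

end pw

section lift

variable {F : Type} [Field F] [Fintype F] [DecidableEq F] {U : Type} [AddCommGroup U]
  [Fintype U] [DecidableEq U] {𝔅 E : Type} [Fintype 𝔅] [DecidableEq 𝔅] [Fintype E]
  [DecidableEq E]

/-- The number of `x` incident with `b` at `u` and with `b'` at `u'`. -/
def Fn (inc : 𝔅 → U → E → Prop) [∀ b u x, Decidable (inc b u x)] (b b' : 𝔅) (u u' : U) : ℕ :=
  (univ.filter (fun x => inc b u x ∧ inc b' u' x)).card

omit [AddCommGroup U] [DecidableEq U] [Fintype 𝔅] [DecidableEq 𝔅] [DecidableEq E] in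
theorem sum_Fn (inc : 𝔅 → U → E → Prop) [∀ b u x, Decidable (inc b u x)] (b b' : 𝔅) {ρ : ℕ}
    (h2 : ∀ b x, (univ.filter (fun u => inc b u x)).card = ρ) :
    ∑ u, ∑ u', Fn inc b b' u u' = Fintype.card E * ρ ^ 2 := by
  have h3 : ∀ u u', Fn inc b b' u u' =
      ∑ x, (if inc b u x then 1 else 0) * (if inc b' u' x then 1 else 0) := by
    intro u u'
    unfold Fn
    rw [card_filter]
    refine sum_congr rfl (fun x _ => ?_)
    by_cases h4 : inc b u x <;> by_cases h5 : inc b' u' x <;> simp [h4, h5]
  have h4 : ∀ x, ∑ u, ∑ u', (if inc b u x then 1 else 0) * (if inc b' u' x then 1 else 0) =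
      ρ ^ 2 := by
    intro x
    rw [← sum_mul_sum, ← card_filter, ← card_filter, h2, h2, sq]
  calc ∑ u, ∑ u', Fn inc b b' u u'
      = ∑ u, ∑ u', ∑ x, (if inc b u x then 1 else 0) * (if inc b' u' x then 1 else 0) :=
        sum_congr rfl (fun u _ => sum_congr rfl (fun u' _ => h3 u u'))
    _ = ∑ u, ∑ x, ∑ u', (if inc b u x then 1 else 0) * (if inc b' u' x then 1 else 0) :=
        sum_congr rfl (fun u _ => sum_comm)
    _ = ∑ x, ∑ u, ∑ u', (if inc b u x then 1 else 0) * (if inc b' u' x then 1 else 0) := sum_comm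
    _ = ∑ _x : E, ρ ^ 2 := sum_congr rfl (fun x _ => h4 x)
    _ = Fintype.card E * ρ ^ 2 := by rw [sum_const, card_univ, smul_eq_mul]

/-- The lifting theorem. -/
theorem coloured_lift (inc : 𝔅 → U → E → Prop) [∀ b u x, Decidable (inc b u x)] (χ : F → U)
    (T : Finset U) (e : U) (q0 κ ρ Λ σ lam : ℕ) (hq0 : 0 < q0) (hσ : 0 < σ) (hlam : 0 < lam)
    (hb : 0 < Fintype.card 𝔅) (hcard : Fintype.card 𝔅 = T.card * Fintype.card E)
    (hχ : ∀ z w, z ≠ 0 → w ≠ 0 → χ (z / w) = χ z - χ w)
    (hfib : ∀ d, (univ.filter (fun z => z ≠ 0 ∧ χ z = d)).card = κ)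
    (hT : ∀ H : U → ℕ, (∀ u, H (u + e) = H u) → ∑ u, H u = q0 * ∑ i ∈ T, H i)
    (h1 : ∀ b b' u u', Fn inc b b' (u + e) (u' + e) = Fn inc b b' u u')
    (h2 : ∀ b x, (univ.filter (fun u => inc b u x)).card = ρ)
    (h3 : ∀ b b', b ≠ b' → ∑ u, Fn inc b b' u u = Λ)
    (h4 : ∀ u x, (univ.filter (fun b => inc b u x)).card = σ)
    (h5 : Fintype.card F * Λ = q0 * lam)
    (h6 : κ * (Fintype.card E * ρ ^ 2) = q0 * lam) :
    Coloured ((Fintype.card F + 1) * Fintype.card 𝔅) (Fintype.card F * σ)
      (Fintype.card F + 1) := by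
  classical
  set Q := Fintype.card F with hQ
  have hQ2 : 2 ≤ Q := Fintype.one_lt_card
  let B : Option F × ({u // u ∈ T} × E) → Finset (Option F × 𝔅) := fun c =>
    univ.filter (fun p => p.1 ≠ c.1 ∧ inc p.2 (c.2.1.1 - χ (pw p.1 c.1)) c.2.2)
  have hB : ∀ I b J i x, ((I, b) : Option F × 𝔅) ∈ B (J, (i, x)) ↔
      I ≠ J ∧ inc b (i.1 - χ (pw I J)) x := by
    intro I b J i x
    simp [B]
  have hσb : σ ≤ Fintype.card 𝔅 := by
    have hT0 : 0 < T.card * Fintype.card E := hcard ▸ hb
    have hE : 0 < Fintype.card E := Nat.pos_of_ne_zero (fun h => by rw [h] at hT0; simp at hT0)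
    obtain ⟨x⟩ := Fintype.card_pos_iff.1 hE
    rw [← h4 0 x]
    exact card_le_univ _
  have hmain := coloured_of (V := Option F × 𝔅) (β := Option F × ({u // u ∈ T} × E))
    (C := Option F) ((Q + 1) * Fintype.card 𝔅) (Q + 1) σ lam B Prod.fst Prod.fst hσ (by omega)
    (by rw [Nat.add_sub_cancel]; nlinarith) (by rw [Nat.add_sub_cancel]; nlinarith)
    (by rw [Fintype.card_option])
    (by rw [Fintype.card_prod, Fintype.card_option])
    (by rw [Fintype.card_prod, Fintype.card_option, Fintype.card_prod, Fintype.card_coe, hcard])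
    ?_ ?_ ?_ hlam ?_
  · rw [Nat.add_sub_cancel] at hmain
    exact hmain
  · obtain ⟨b⟩ := Fintype.card_pos_iff.1 hb
    exact fun I => ⟨(I, b), rfl⟩
  · rintro ⟨J, i, x⟩ ⟨I, b⟩ hp
    exact ((hB _ _ _ _ _).1 hp).1
  · rintro ⟨J, i, x⟩ I (hI : I ≠ J)
    have h7 : (B (J, (i, x))).filter (fun p => p.1 = I) =
        (univ.filter (fun b => inc b (i.1 - χ (pw I J)) x)).image (fun b => (I, b)) := by
      ext ⟨I', b⟩
      simp only [mem_filter, mem_image, hB, mem_univ, true_and, Prod.mk.injEq]
      constructor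
      · rintro ⟨⟨-, h⟩, rfl⟩
        exact ⟨b, h, rfl, rfl⟩
      · rintro ⟨b', h, rfl, rfl⟩
        exact ⟨⟨hI, h⟩, rfl⟩
    rw [h7, card_image_of_injective _ (fun a b hab => (Prod.mk.inj hab).2), h4]
  · rintro ⟨I, b⟩ ⟨I', b'⟩ hne
    apply Nat.eq_of_mul_eq_mul_left hq0
    -- reduce to a sum over `J`
    have h8 : ∀ J, (univ.filter (fun c : {u // u ∈ T} × E =>
        (I, b) ∈ B (J, c) ∧ (I', b') ∈ B (J, c))).card =
        if J ≠ I ∧ J ≠ I' then
          ∑ i ∈ T, Fn inc b b' (i - χ (pw I J)) (i - χ (pw I' J)) else 0 := by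
      intro J
      by_cases hJ : J ≠ I ∧ J ≠ I'
      · rw [if_pos hJ, card_filter_prod', ← sum_coe_sort T]
        refine sum_congr rfl (fun i _ => ?_)
        unfold Fn
        refine congrArg card (filter_congr (fun x _ => ?_))
        rw [hB, hB]
        exact ⟨fun h => ⟨h.1.2, h.2.2⟩, fun h => ⟨⟨Ne.symm hJ.1, h.1⟩, ⟨Ne.symm hJ.2, h.2⟩⟩⟩
      · rw [if_neg hJ, card_eq_zero, filter_eq_empty_iff]
        rintro ⟨i, x⟩ - ⟨h9, h10⟩
        rw [hB] at h9 h10
        exact hJ ⟨Ne.symm h9.1, Ne.symm h10.1⟩
    rw [card_filter_prod', sum_congr rfl (fun J _ => h8 J), ← sum_filter, mul_sum]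
    -- complete the sum over the transversal
    have h9 : ∀ α β : U, q0 * ∑ i ∈ T, Fn inc b b' (i - α) (i - β) =
        ∑ u, Fn inc b b' u (u + (α - β)) := by
      intro α β
      rw [← hT (fun i => Fn inc b b' (i - α) (i - β)) (fun u => by
        have h10 : u + e - α = u - α + e := by abel
        have h11 : u + e - β = u - β + e := by abel
        rw [h10, h11, h1])]
      refine Fintype.sum_equiv (Equiv.subRight α) _ _ (fun u => ?_)
      simp only [Equiv.subRight_apply]
      congr 1
      abel
    rw [sum_congr rfl (fun J _ => h9 _ _)]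
    by_cases hI : I = I'
    · subst hI
      have hbb : b ≠ b' := fun h => hne (by rw [h])
      have h10 : ∀ J, ∑ u, Fn inc b b' u (u + (χ (pw I J) - χ (pw I J))) = Λ := by
        intro J
        rw [← h3 b b' hbb]
        refine sum_congr rfl (fun u _ => ?_)
        rw [sub_self, add_zero]
      rw [sum_congr rfl (fun J _ => h10 J), sum_const, smul_eq_mul, ← h5]
      congr 1
      have h11 : (univ.filter (fun J : Option F => J ≠ I ∧ J ≠ I)) = univ.erase I := by
        ext J
        simp
      rw [h11, card_erase_of_mem (mem_univ _), card_univ, Fintype.card_option,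
        Nat.add_sub_cancel]
    · have h10 : ∀ J ∈ univ.filter (fun J : Option F => J ≠ I ∧ J ≠ I'),
          ∑ u, Fn inc b b' u (u + (χ (pw I J) - χ (pw I' J))) =
          (fun z => ∑ u, Fn inc b b' u (u + χ z)) (pw I J / pw I' J) := by
        intro J hJ
        rw [mem_filter] at hJ
        simp only
        rw [hχ _ _ (pw_ne (Ne.symm hJ.2.1)) (pw_ne (Ne.symm hJ.2.2))]
      rw [sum_congr rfl h10, sum_ratio (fun z => ∑ u, Fn inc b b' u (u + χ z)) hI,
        ← sum_fiberwise (univ.filter (fun z : F => z ≠ 0)) χ]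
      have h11 : ∀ d, ∑ z ∈ (univ.filter (fun z : F => z ≠ 0)).filter (fun z => χ z = d),
          ∑ u, Fn inc b b' u (u + χ z) = κ * ∑ u, Fn inc b b' u (u + d) := by
        intro d
        rw [sum_congr rfl (g := fun _ => ∑ u, Fn inc b b' u (u + d)), sum_const, smul_eq_mul,
          filter_filter, hfib]
        intro z hz
        rw [(mem_filter.1 hz).2]
      rw [sum_congr rfl (fun d _ => h11 d), ← mul_sum, ← h6, ← sum_Fn inc b b' h2, sum_comm]
      congr 1
      refine sum_congr rfl (fun u _ => ?_)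
      exact Fintype.sum_equiv (Equiv.addLeft u) _ _ (fun d => rfl)

end lift

end Pool.Agent.Helper63.UC
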