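import Pool.Agent.Helper63.UC.Defs

/-!
# Necessary conditions: all colour classes have the same size
-/

set_option autoImplicit false

namespace Pool.Agent.Helper63.UC

open Finset

section

variable {V β : Type} [Fintype V] [DecidableEq V] [Fintype β]

/-- Double counting: pairs `(y, b)` with `x, y ∈ b`, `y ∈ S`. -/
theorem double_count (B : β → Finset V) (x : V) (S : Finset V) :
    ∑ y ∈ S, (univ.filter (fun b : β => x ∈ B b ∧ y ∈ B b)).card =
      ∑ b ∈ univ.filter (fun b : β => x ∈ B b), (S.filter (fun y => y ∈ B b)).card := by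
  simp only [card_filter]
  rw [sum_comm, sum_filter]
  apply sum_congr rfl
  intro b _
  by_cases hx : x ∈ B b
  · simp [hx]
  · simp [hx]

theorem replication {v k lam : ℕ} {B : β → Finset V} (hv : Fintype.card V = v)
    (hβ : Fintype.card β = v) (hk : ∀ b, (B b).card = k) (hk2 : 2 ≤ k) (hkv : k < v)
    (hl : ∀ x y : V, x ≠ y → (univ.filter (fun b : β => x ∈ B b ∧ y ∈ B b)).card = lam) (x : V) :
    (univ.filter (fun b : β => x ∈ B b)).card = k := by
  have h1 : ∀ x, (v - 1) * lam = (univ.filter (fun b : β => x ∈ B b)).card * (k - 1) := by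
    intro x
    have h2 := double_count B x (univ.erase x)
    rw [sum_congr rfl (fun y hy => hl x y (ne_of_mem_erase hy).symm), sum_const,
      card_erase_of_mem (mem_univ x), card_univ, hv, smul_eq_mul] at h2
    rw [h2, sum_congr rfl (g := fun _ => k - 1), sum_const, smul_eq_mul]
    intro b hb
    have h3 : (univ.erase x).filter (fun y => y ∈ B b) = (B b).erase x := by
      ext y
      simp
    rw [h3, card_erase_of_mem (mem_filter.1 hb).2, hk]
  have h4 : ∑ x : V, (univ.filter (fun b : β => x ∈ B b)).card = v * k := by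
    simp only [card_filter]
    rw [sum_comm, sum_congr rfl (g := fun _ => k), sum_const, card_univ, hβ, smul_eq_mul]
    intro b _
    rw [← card_filter, ← hk b]
    congr 1
    ext y
    simp
  have h5 : ∀ y, (univ.filter (fun b : β => y ∈ B b)).card =
      (univ.filter (fun b : β => x ∈ B b)).card := by
    intro y
    have h6 := (h1 y).symm.trans (h1 x)
    exact Nat.eq_of_mul_eq_mul_right (by omega) h6
  rw [sum_congr rfl (fun y _ => h5 y), sum_const, card_univ, hv, smul_eq_mul] at h4
  exact Nat.eq_of_mul_eq_mul_left (by omega) h4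

end

/-- Necessary conditions for a coloured symmetric design. -/
theorem necessary {v k l : ℕ} (h : Coloured v k l) :
    l ∣ v ∧ k < (l - 1) ^ 2 ∧ v * ((l - 1) ^ 2 - k) = l * (l - 2) * k := by
  classical
  obtain ⟨V, β, _, _, _, B, f, ⟨hk2, hkv, hv, hβ, hk, lam, hlam, hl⟩, hsurj, hdvd, hcol⟩ := h
  obtain ⟨s, hs⟩ := hdvd
  have hβ0 : Nonempty β := Fintype.card_pos_iff.1 (by omega)
  obtain ⟨b0⟩ := hβ0
  obtain ⟨c0, -, -⟩ := hcol b0
  have hl1 : 0 < l := Fin.pos c0
  have hl2 : 0 < l - 1 := by
    rcases Nat.eq_zero_or_pos (l - 1) with h0 | h0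
    · rw [h0, zero_mul] at hs; omega
    · exact h0
  have hks : k / (l - 1) = s := by rw [hs, Nat.mul_div_cancel_left _ hl2]
  have hs0 : 0 < s := by
    rcases Nat.eq_zero_or_pos s with h0 | h0
    · rw [h0, mul_zero] at hs; omega
    · exact h0
  have hrep := replication hv hβ hk hk2 hkv hl
  -- a colour which occurs in a block occurs `s` times
  have hocc : ∀ b, ∀ x ∈ B b, ((B b).filter (fun y => f y = f x)).card = s := by
    intro b x hx
    obtain ⟨c, ⟨h1, h2⟩, -⟩ := hcol b
    rw [← hks]
    refine h2 (f x) (fun he => ?_)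
    rw [card_eq_zero, filter_eq_empty_iff] at h1
    exact h1 hx he
  -- the size of the colour classes
  have hcls : ∀ c : Fin l, ((univ.filter (fun y => f y = c)).card - 1) * lam = k * (s - 1) ∧
      1 ≤ (univ.filter (fun y => f y = c)).card := by
    intro c
    obtain ⟨x, rfl⟩ := hsurj c
    have hx : x ∈ univ.filter (fun y => f y = f x) := by simp
    refine ⟨?_, card_pos.2 ⟨x, hx⟩⟩
    have h2 := double_count B x ((univ.filter (fun y => f y = f x)).erase x)
    rw [sum_congr rfl (fun y hy => hl x y (ne_of_mem_erase hy).symm), sum_const,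
      card_erase_of_mem hx, smul_eq_mul] at h2
    rw [h2, sum_congr rfl (g := fun _ => s - 1), sum_const, hrep, smul_eq_mul]
    intro b hb
    have hxb := (mem_filter.1 hb).2
    have h3 : ((univ.filter (fun y => f y = f x)).erase x).filter (fun y => y ∈ B b) =
        ((B b).filter (fun y => f y = f x)).erase x := by
      ext y
      simp only [mem_filter, mem_erase, mem_univ, true_and]
      tauto
    have h4 : x ∈ (B b).filter (fun y => f y = f x) := mem_filter.2 ⟨hxb, rfl⟩
    rw [h3, card_erase_of_mem h4, hocc b x hxb]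
  obtain ⟨n, hn⟩ : ∃ n, n = (univ.filter (fun y => f y = c0)).card := ⟨_, rfl⟩
  have hcn : ∀ c : Fin l, (univ.filter (fun y => f y = c)).card = n := by
    intro c
    obtain ⟨h1, h2⟩ := hcls c
    obtain ⟨h3, h4⟩ := hcls c0
    rw [← hn] at h3 h4
    have h5 := Nat.eq_of_mul_eq_mul_right hlam (h1.trans h3.symm)
    omega
  have hvn : v = l * n := by
    have h1 := card_eq_sum_card_fiberwise (s := (univ : Finset V)) (f := f) (t := univ)
      (fun x _ => mem_coe.2 (mem_univ _))
    rw [card_univ, hv, sum_congr rfl (fun c _ => hcn c), sum_const, card_univ, Fintype.card_fin,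
      smul_eq_mul] at h1
    exact h1
  have hn1 : 1 ≤ n := by
    have := (hcls c0).2
    rw [hcn] at this
    exact this
  have e1 : (n - 1) * lam = k * (s - 1) := by
    have := (hcls c0).1
    rw [hcn] at this
    exact this
  have e2 : (v - 1) * lam = k * (k - 1) := by
    have hV0 : Nonempty V := Fintype.card_pos_iff.1 (by omega)
    obtain ⟨x⟩ := hV0
    have h2 := double_count B x (univ.erase x)
    rw [sum_congr rfl (fun y hy => hl x y (ne_of_mem_erase hy).symm), sum_const,
      card_erase_of_mem (mem_univ x), card_univ, hv, smul_eq_mul] at h2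
    rw [h2, sum_congr rfl (g := fun _ => k - 1), sum_const, smul_eq_mul, hrep]
    intro b hb
    have h3 : (univ.erase x).filter (fun y => y ∈ B b) = (B b).erase x := by
      ext y
      simp
    rw [h3, card_erase_of_mem (mem_filter.1 hb).2, hk]
  -- arithmetic over the integers
  obtain ⟨m, rfl⟩ : ∃ m, l = m + 1 := ⟨l - 1, by omega⟩
  rw [Nat.add_sub_cancel] at hs hl2
  have e1' : ((n : ℤ) - 1) * lam = k * (s - 1) := by
    have h1 : ((n - 1 : ℕ) : ℤ) = (n : ℤ) - 1 := by push_cast [hn1]; ring
    have h2 : ((s - 1 : ℕ) : ℤ) = (s : ℤ) - 1 := by push_cast [hs0]; ring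
    rw [← h1, ← h2]
    exact_mod_cast e1
  have e2' : ((v : ℤ) - 1) * lam = k * (k - 1) := by
    have h1 : ((v - 1 : ℕ) : ℤ) = (v : ℤ) - 1 := by
      have : 1 ≤ v := by omega
      push_cast [this]; ring
    have h2 : ((k - 1 : ℕ) : ℤ) = (k : ℤ) - 1 := by
      have : 1 ≤ k := by omega
      push_cast [this]; ring
    rw [← h1, ← h2]
    exact_mod_cast e2
  have hk' : (k : ℤ) = m * s := by exact_mod_cast hs
  have hv' : (v : ℤ) = (m + 1) * n := by rw [hvn]; push_cast; ring
  have hm0 : (0 : ℤ) < m := by exact_mod_cast hl2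
  have hs' : (0 : ℤ) < s := by exact_mod_cast hs0
  have hlam' : (0 : ℤ) < lam := by exact_mod_cast hlam
  have e3 : (lam : ℤ) * n = s ^ 2 * (m - 1) := by
    have h1 : (m : ℤ) * (lam * n) = m * (s ^ 2 * (m - 1)) := by
      rw [hv'] at e2'
      rw [hk'] at e1' e2'
      linear_combination e2' - e1'
    exact mul_left_cancel₀ hm0.ne' h1
  have e4 : (lam : ℤ) = s * (m - s) := by
    rw [hk'] at e1'
    linear_combination e3 - e1'
  have e5 : (s : ℤ) < m := by
    have h1 : 0 < (s : ℤ) * (m - s) := by rw [← e4]; exact hlam'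
    have h2 := (mul_pos_iff_of_pos_left hs').1 h1
    linarith
  have e6 : (n : ℤ) * (m - s) = s * (m - 1) := by
    have h1 : (s : ℤ) * (n * (m - s)) = s * (s * (m - 1)) := by
      rw [e4] at e3
      linear_combination e3
    exact mul_left_cancel₀ hs'.ne' h1
  have hsm : s < m := by exact_mod_cast e5
  refine ⟨⟨n, hvn⟩, ?_, ?_⟩
  · rw [hs, Nat.add_sub_cancel, sq]
    exact Nat.mul_lt_mul_of_pos_left hsm hl2
  · have h1 : ((m + 1 - 1) ^ 2 - k : ℕ) = m * (m - s) := by
      rw [Nat.add_sub_cancel, hs, sq, Nat.mul_sub]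
    have h2 : m + 1 - 2 = m - 1 := by omega
    rw [h1, h2]
    zify [hsm.le, Nat.one_le_iff_ne_zero.2 hl2.ne']
    rw [hv', hk']
    linear_combination (m * (m + 1) : ℤ) * e6

end Pool.Agent.Helper63.UC
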